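import Pool.Agent.P.MP_80c021_al.Conv

/-!
# `EE` of four entries is the symmetrised product; `Mpow` on repeated letters
-/

namespace Kos

variable {α A : Type*} [Ring A]

theorem EE_four (h5 : (5 : A) = 0) (x : α → A) (p q r s : α) :
    EE x [p, q, r, s] = x p * x q * x r * x s +
      x p * x q * x s * x r +
      x p * x r * x q * x s +
      x p * x r * x s * x q +
      x p * x s * x q * x r +
      x p * x s * x r * x q +
      x q * x p * x r * x s +
      x q * x p * x s * x r +
      x q * x r * x p * x s +
      x q * x r * x s * x p +
      x q * x s * x p * x r +
      x q * x s * x r * x p +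
      x r * x p * x q * x s +
      x r * x p * x s * x q +
      x r * x q * x p * x s +
      x r * x q * x s * x p +
      x r * x s * x p * x q +
      x r * x s * x q * x p +
      x s * x p * x q * x r +
      x s * x p * x r * x q +
      x s * x q * x p * x r +
      x s * x q * x r * x p +
      x s * x r * x p * x q +
      x s * x r * x q * x p := by
  have : EE x [p, q, r, s] = (x p * x q * x r * x s +
      x p * x q * x s * x r +
      x p * x r * x q * x s +
      x p * x r * x s * x q +
      x p * x s * x q * x r +
      x p * x s * x r * x q +
      x q * x p * x r * x s +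
      x q * x p * x s * x r +
      x q * x r * x p * x s +
      x q * x r * x s * x p +
      x q * x s * x p * x r +
      x q * x s * x r * x p +
      x r * x p * x q * x s +
      x r * x p * x s * x q +
      x r * x q * x p * x s +
      x r * x q * x s * x p +
      x r * x s * x p * x q +
      x r * x s * x q * x p +
      x s * x p * x q * x r +
      x s * x p * x r * x q +
      x s * x q * x p * x r +
      x s * x q * x r * x p +
      x s * x r * x p * x q +
      x s * x r * x q * x p) + 5 • (11 • (x p * x q * x r * x s) +
      4 • (x p * x q * x s * x r) +
      4 • (x p * x r * x q * x s) +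
      4 • (x p * x r * x s * x q) +
      4 • (x p * x s * x q * x r) +
      1 • (x p * x s * x r * x q) +
      4 • (x q * x p * x r * x s) +
      1 • (x q * x p * x s * x r) +
      4 • (x q * x r * x p * x s) +
      4 • (x q * x r * x s * x p) +
      4 • (x q * x s * x p * x r) +
      1 • (x q * x s * x r * x p) +
      4 • (x r * x p * x q * x s) +
      1 • (x r * x p * x s * x q) +
      1 • (x r * x q * x p * x s) +
      1 • (x r * x q * x s * x p) +
      4 • (x r * x s * x p * x q) +
      1 • (x r * x s * x q * x p) +
      4 • (x s * x p * x q * x r) +
      1 • (x s * x p * x r * x q) +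
      1 • (x s * x q * x p * x r) +
      1 • (x s * x q * x r * x p) +
      1 • (x s * x r * x p * x q)) := by
    simp only [EE, Finset.sum_range_succ, Finset.sum_range_zero, Mpow, conv, delta, List.map_cons,
      List.map_nil, List.prod_cons, List.prod_nil, mul_one, one_mul, mul_zero, add_zero, zero_add,
      mul_add, mul_assoc]
    abel
  rw [this, nsmul_eq_mul (5 : ℕ)]
  simp [h5]

theorem conv_replicate (u : α) (n : ℕ) (l : List α) : ∀ F G : List α → A,
    conv (List.replicate n u ++ l) F G = ∑ k ∈ Finset.range (n + 1), n.choose k •
      conv l (fun t => F (List.replicate k u ++ t)) (fun t => G (List.replicate (n - k) u ++ t)) := by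
  induction n with
  | zero => intro F G; simp
  | succ n ih =>
    intro F G
    rw [List.replicate_succ, List.cons_append, conv_cons, ih, ih, Finset.sum_range_succ' _ (n + 1)]
    simp only [Nat.choose_succ_succ', add_smul, Finset.sum_add_distrib, Nat.add_sub_add_right,
      List.replicate_succ, List.cons_append, add_assoc]
    congr 1
    rw [Finset.sum_range_succ' _ n, Finset.sum_range_succ _ n]
    simp only [Nat.choose_succ_self, zero_smul, add_zero, Nat.choose_zero_right, Nat.sub_zero,
      List.replicate_succ, List.cons_append]
    congr 1
    refine Finset.sum_congr rfl fun k hk => ?_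
    rw [show n - k = n - (k + 1) + 1 by have := Finset.mem_range.1 hk; omega]
    simp only [List.replicate_succ, List.cons_append]

theorem conv_prod_replicate (x : α → A) (u : α) (n : ℕ) (l : List α) (G : List α → A) :
    conv (List.replicate n u ++ l) (fun t => (t.map x).prod) G =
      ∑ k ∈ Finset.range (n + 1), n.choose k • (x u ^ k *
        conv l (fun t => (t.map x).prod) (fun t => G (List.replicate (n - k) u ++ t))) := by
  rw [conv_replicate]
  refine Finset.sum_congr rfl fun k _ => ?_
  rw [← conv_mul_left]
  simp

end Kos
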