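import Pool.Agent.P.MP_80c021_al.Vec
import Pool.Agent.P.MP_80c021_al.Sym4

/-!
# A checker for multiplication tables of `F₅⟨x, y, z⟩ / (E₄ on Lie monomials)`, weight by weight

The weight `(a, b, c)` has index `40 a + 8 b + c`.
-/

namespace Kos.Chk

/-- Triples. -/
structure T3 (α : Type) where
  /-- first entry -/
  a : α
  /-- second entry -/
  b : α
  /-- third entry -/
  c : α

/-- Read an entry. -/
noncomputable def T3.get {α : Type} (s : T3 α) (n : ℕ) : α :=
  T3.rec (motive := fun _ => α) (fun a b c => Nat.rec (motive := fun _ => α) a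
    (fun m _ => Nat.rec (motive := fun _ => α) b (fun _ _ => c) m) n) s

/-- Write an entry. -/
noncomputable def T3.set {α : Type} (s : T3 α) (n : ℕ) (v : α) : T3 α :=
  T3.rec (motive := fun _ => T3 α) (fun a b c => Nat.rec (motive := fun _ => T3 α) ⟨v, b, c⟩
    (fun m _ => Nat.rec (motive := fun _ => T3 α) ⟨a, v, c⟩ (fun _ _ => ⟨a, b, v⟩) m) n) s

theorem T3.get_set {α : Type} (s : T3 α) {n m : ℕ} (hn : n < 3) (hm : m < 3) (v : α) :
    (s.set n v).get m = if m = n then v else s.get m := by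
  obtain ⟨a, b, c⟩ := s
  interval_cases n <;> interval_cases m <;> rfl

/-- The index of a letter. -/
noncomputable def st (a : ℕ) : ℕ := T3.get ⟨nat_lit 40, nat_lit 8, nat_lit 1⟩ a

/-- The letter `a` occurs in the weight with index `i`. -/
noncomputable def valid (i a : ℕ) : Bool :=
  Nat.ble (nat_lit 1) (T3.get ⟨Nat.div i (nat_lit 40), Nat.mod (Nat.div i (nat_lit 8)) (nat_lit 5),
    Nat.mod i (nat_lit 8)⟩ a)

theorem st_0 : st 0 = 40 := rfl
theorem st_1 : st 1 = 8 := rfl
theorem st_2 : st 2 = 1 := rfl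
theorem valid_0 (i : ℕ) : valid i 0 = true ↔ 1 ≤ i / 40 := Nat.ble_eq ▸ Iff.rfl
theorem valid_1 (i : ℕ) : valid i 1 = true ↔ 1 ≤ i / 8 % 5 := Nat.ble_eq ▸ Iff.rfl
theorem valid_2 (i : ℕ) : valid i 2 = true ↔ 1 ≤ i % 8 := Nat.ble_eq ▸ Iff.rfl

theorem sub_st_lt {i a : ℕ} (ha : a < 3) (h : valid i a = true) : i - st a < i := by
  interval_cases a
  · rw [valid_0] at h; rw [st_0]; omega
  · rw [valid_1] at h; rw [st_1]; omega
  · rw [valid_2] at h; rw [st_2]; omega

/-- The tables of one weight. -/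
structure Cell where
  /-- number of basis elements -/
  dim : ℕ
  /-- left multiplication tables -/
  L : T3 (List ℕ)
  /-- right multiplication tables -/
  R : T3 (List ℕ)

/-- Read an entry of a list. -/
noncomputable def nth {α : Type} (l : List α) (d : α) : ℕ → α :=
  List.rec (motive := fun _ => ℕ → α) (fun _ => d)
    (fun a _ ih n => Nat.rec (motive := fun _ => α) a (fun m _ => ih m) n) l

theorem nth_eq {α : Type} (l : List α) (d : α) : ∀ n, nth l d n = l.getD n d := by
  induction l with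
  | nil => intro n; simp [nth]
  | cons a l ih =>
    intro n
    cases n with
    | zero => rfl
    | succ n => exact ih n

/-- Zip two lists, in reverse order. -/
noncomputable def revzip (A : List ℕ) : List ℕ → List (ℕ × ℕ) → List (ℕ × ℕ) :=
  List.rec (motive := fun _ => List ℕ → List (ℕ × ℕ) → List (ℕ × ℕ)) (fun _ acc => acc)
    (fun a _ ih C acc => List.rec (motive := fun _ => List (ℕ × ℕ)) acc
      (fun c C' _ => ih C' ((a, c) :: acc)) C) A

/-- The pairs (coordinates of `x_a u`, coordinates of `u x_b`). -/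
noncomputable def Zab (T : ℕ → Cell) (i a b : ℕ) : List (ℕ × ℕ) :=
  bif valid i a && valid i b && valid (Nat.sub i (st b)) a && valid (Nat.sub i (st a)) b then
    revzip ((T (Nat.sub i (st b))).L.get a) ((T (Nat.sub i (st a))).R.get b) [] else []

/-- The number of basis elements of the weight `i` minus the letter `a`. -/
noncomputable def pdim (T : ℕ → Cell) (i a : ℕ) : ℕ :=
  bif valid i a then (T (Nat.sub i (st a))).dim else nat_lit 0

/-- Unpack a data row. -/
noncomputable def unf (K d : ℕ) : ℕ :=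
  Nat.rec (motive := fun _ => ℕ) (Nat.land (Nat.mul (Nat.shiftRight d (nat_lit 1)) K) M7)
    (fun _ _ => shl (nat_lit 1) (Nat.shiftRight d (nat_lit 1))) (Nat.land d (nat_lit 1))

theorem small_unf (K d : ℕ) : Small 7 (unf K d) := by
  unfold unf
  cases Nat.land d (nat_lit 1) with
  | zero => exact small_land7 _
  | succ n =>
    change Small 7 (shl 1 _)
    rw [shl_eq]
    exact (small_one.mul_pow _).mono (by norm_num)

/-- Unpack a data table. -/
noncomputable def unfs (K : ℕ) (l : List ℕ) : List ℕ :=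
  List.rec (motive := fun _ => List ℕ) [] (fun d _ ih => unf K d :: ih) l

/-- A cell from packed data. -/
noncomputable def mkCell (dim K : ℕ) (l0 l1 l2 r0 r1 r2 : List ℕ) : Cell :=
  ⟨dim, ⟨unfs K l0, unfs K l1, unfs K l2⟩, ⟨unfs K r0, unfs K r1, unfs K r2⟩⟩

/-- The state of the first phase. -/
structure St where
  /-- remaining pairs -/
  Z : T3 (List (ℕ × ℕ))
  /-- known rows of the left table -/
  L : List ℕ
  /-- number of unknown rows of the left table -/
  kL : ℕ
  /-- known rows and number of unknown rows of the right tables -/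
  Rr : T3 (List ℕ × ℕ)

/-- `v` is the unit vector at position `k - 1`. -/
def isUnit (v k : ℕ) : Bool :=
  Nat.ble (nat_lit 1) k && Nat.beq v (shl (nat_lit 1) (Nat.sub k (nat_lit 1)))

/-- The first `k` digits of `v` vanish. -/
def isDiv (v k : ℕ) : Bool := Nat.beq (shl (shr v k) k) v

/-- One instruction. -/
noncomputable def step (n dim NP K : ℕ) (GP : List (ℕ × ℕ)) (a t b arg : ℕ) (s : St)
    (k : St → Bool) : Bool :=
  St.rec (motive := fun _ => Bool) (fun Z L kL Rr => Nat.ble b (nat_lit 2) &&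
    List.rec (motive := fun _ => Bool) false (fun p Z' _ =>
      Prod.rec (motive := fun _ => Bool) (fun vL vR =>
        Prod.rec (motive := fun _ => Bool) (fun Rb kb =>
          bif Nat.beq t (nat_lit 0) then k ⟨Z.set b Z', L, kL, Rr⟩
          else bif Nat.beq t (nat_lit 1) then
            isUnit vR kL && isDiv vL kb && force (nvm Rb (shr vL kb) (nat_lit 0)) fun r =>
              k ⟨Z.set b Z', r :: L, Nat.sub kL (nat_lit 1), Rr⟩
          else bif Nat.beq t (nat_lit 2) then
            isUnit vL kb && isDiv vR kL && force (nvm L (shr vR kL) (nat_lit 0)) fun r =>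
              k ⟨Z.set b Z', L, kL, Rr.set b (r :: Rb, Nat.sub kb (nat_lit 1))⟩
          else bif Nat.beq t (nat_lit 3) then
            isUnit vR kL && isUnit vL kb && Nat.blt arg dim &&
              Nat.beq (Nat.land (shr NP arg) (nat_lit 65535))
                (Nat.add (Nat.mul (nat_lit 4) (Nat.sub kL (nat_lit 1))) a) &&
              force (shl (nat_lit 1) (Nat.add n arg)) fun r =>
                k ⟨Z.set b Z', r :: L, Nat.sub kL (nat_lit 1),
                  Rr.set b (r :: Rb, Nat.sub kb (nat_lit 1))⟩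
          else
            isUnit vR kL && isUnit vL kb && Nat.blt arg n &&
              Nat.beq (nth GP (nat_lit 0, nat_lit 0) arg).1
                (Nat.add (Nat.mul (nat_lit 4) (Nat.sub kL (nat_lit 1))) a) &&
              force (nrm (Nat.add (shl (nat_lit 1) arg)
                  (shl (unf K (nth GP (nat_lit 0, nat_lit 0) arg).2) n))) fun r =>
                k ⟨Z.set b Z', r :: L, Nat.sub kL (nat_lit 1),
                  Rr.set b (r :: Rb, Nat.sub kb (nat_lit 1))⟩) (Rr.get b)) p) (Z.get b)) s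

/-- Run `fuel` instructions packed in `code`. -/
noncomputable def run (n dim NP K : ℕ) (GP : List (ℕ × ℕ)) (a : ℕ) (k : St → Bool) (fuel : ℕ) :
    ℕ → St → Bool :=
  Nat.rec (motive := fun _ => ℕ → St → Bool) (fun _ s => k s)
    (fun _ ih code s => step n dim NP K GP a (Nat.land code (nat_lit 7))
      (Nat.land (Nat.shiftRight code (nat_lit 3)) (nat_lit 3))
      (Nat.land (Nat.shiftRight code (nat_lit 5)) (nat_lit 2047)) s
      (ih (Nat.shiftRight code (nat_lit 16)))) fuel

/-- All words starting with the letter `a`. -/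
noncomputable def stage (T : ℕ → Cell) (i n dim NP K : ℕ) (GP : List (ℕ × ℕ)) (a : ℕ) (p : ℕ × ℕ)
    (Rr : T3 (List ℕ × ℕ)) (k : List ℕ → T3 (List ℕ × ℕ) → Bool) : Bool :=
  run n dim NP K GP a (fun s => Nat.beq s.kL (nat_lit 0) && k s.L s.Rr) p.1 p.2
    ⟨⟨Zab T i a (nat_lit 0), Zab T i a (nat_lit 1), Zab T i a (nat_lit 2)⟩, [], pdim T i a, Rr⟩

/-- Sum, reduced. -/
def nadd (u v : ℕ) : ℕ := nrm (Nat.add u v)

/-- Difference, reduced. -/
def nsub (u v : ℕ) : ℕ := nrm (Nat.add u (Nat.mul (nat_lit 4) v))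

/-- Left multiplication by a letter. -/
noncomputable def lmul (T : ℕ → Cell) (a j v : ℕ) : ℕ :=
  force (Nat.add j (st a)) fun j' => nvm ((T j').L.get a) v (nat_lit 0)

/-- Right multiplication by a letter. -/
noncomputable def rmul (T : ℕ → Cell) (a j v : ℕ) : ℕ :=
  force (Nat.add j (st a)) fun j' => nvm ((T j').R.get a) v (nat_lit 0)

/-- The index of the weight of a monomial. -/
noncomputable def iw : FreeMagma ℕ → ℕ
  | .of a => st a
  | .mul s t => Nat.add (iw s) (iw t)

/-- The multiplicity of a letter in a monomial. -/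
def cn (a : ℕ) : FreeMagma ℕ → ℕ
  | .of b => bif Nat.beq b a then nat_lit 1 else nat_lit 0
  | .mul s t => Nat.add (cn a s) (cn a t)

/-- All letters are `0`, `1`, `2`. -/
def okM : FreeMagma ℕ → Bool
  | .of b => Nat.ble b (nat_lit 2)
  | .mul s t => okM s && okM t

/-- Left multiplication by a bracket monomial. -/
noncomputable def actL (T : ℕ → Cell) : FreeMagma ℕ → ℕ → ℕ → ℕ
  | .of a, j, v => lmul T a j v
  | .mul s t, j, v => nsub (actL T s (Nat.add j (iw t)) (actL T t j v))
      (actL T t (Nat.add j (iw s)) (actL T s j v))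

/-- Right multiplication by a bracket monomial. -/
noncomputable def actR (T : ℕ → Cell) : FreeMagma ℕ → ℕ → ℕ → ℕ
  | .of a, j, v => rmul T a j v
  | .mul s t, j, v => nsub (actR T t (Nat.add j (iw s)) (actR T s j v))
      (actR T s (Nat.add j (iw t)) (actR T t j v))

/-- The monomial `[a₁, [a₂, … [a_k, c]]]`. -/
def lm (c : ℕ) : List ℕ → FreeMagma ℕ
  | [] => .of c
  | a :: l => .mul (.of a) (lm c l)

/-- The coordinates of `lm c l`. -/
noncomputable def lieV (T : ℕ → Cell) (c : ℕ) : List ℕ → ℕ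
  | [] => lmul T c (nat_lit 0) (nat_lit 1)
  | a :: l => force (lieV T c l) fun v =>
      nsub (lmul T a (iw (lm c l)) v) (rmul T a (iw (lm c l)) v)

/-- The coordinates of the symmetrised product of `y₁, y₂, y₃` and the element with coordinates
`v` in weight `j`. -/
noncomputable def symV (T : ℕ → Cell) (y1 y2 y3 : FreeMagma ℕ) (j v : ℕ) : ℕ :=
  force (Nat.add j (iw y1)) fun j1 => force (Nat.add j (iw y2)) fun j2 =>
  force (Nat.add j (iw y3)) fun j3 =>
  force (actR T y1 j v) fun g1 => force (actR T y2 j v) fun g2 => force (actR T y3 j v) fun g3 =>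
  force (nadd g1 (actL T y1 j v)) fun f1 => force (nadd g2 (actL T y2 j v)) fun f2 =>
  force (nadd g3 (actL T y3 j v)) fun f3 =>
  force (nadd (actR T y2 j1 g1) (actR T y1 j2 g2)) fun g12 =>
  force (nadd (actR T y3 j1 g1) (actR T y1 j3 g3)) fun g13 =>
  force (nadd (actR T y3 j2 g2) (actR T y2 j3 g3)) fun g23 =>
  force (nadd g12 (nadd (actL T y2 j1 f1) (actL T y1 j2 f2))) fun f12 =>
  force (nadd g13 (nadd (actL T y3 j1 f1) (actL T y1 j3 f3))) fun f13 =>
  force (nadd g23 (nadd (actL T y3 j2 f2) (actL T y2 j3 f3))) fun f23 =>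
  force (Nat.add j1 (iw y2)) fun j12 => force (Nat.add j1 (iw y3)) fun j13 =>
  force (Nat.add j2 (iw y3)) fun j23 =>
  nadd (nadd (actR T y3 j12 g12) (nadd (actR T y2 j13 g13) (actR T y1 j23 g23)))
    (nadd (actL T y3 j12 f12) (nadd (actL T y2 j13 f13) (actL T y1 j23 f23)))

/-- Relations. -/
inductive Rel where
  /-- associativity -/
  | assoc (a b j : ℕ)
  /-- a value of `E₄` -/
  | ev (y1 y2 y3 : FreeMagma ℕ) (c : ℕ) (l : List ℕ)

/-- The relation is well formed. -/
def okRel (i : ℕ) : Rel → Bool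
  | .assoc a b _ => Nat.ble a (nat_lit 2) && Nat.ble b (nat_lit 2)
  | .ev y1 y2 y3 c l => okM y1 && okM y2 && okM y3 && okM (lm c l) &&
      Nat.beq (cn 0 (lm c l) + cn 0 y1 + cn 0 y2 + cn 0 y3) (i / 40) &&
      Nat.beq (cn 1 (lm c l) + cn 1 y1 + cn 1 y2 + cn 1 y3) (i / 8 % 5) &&
      Nat.beq (cn 2 (lm c l) + cn 2 y1 + cn 2 y2 + cn 2 y3) (i % 8)

/-- The coordinates of a relation. -/
noncomputable def evRel (T : ℕ → Cell) (i : ℕ) (plus : Cell) : Rel → ℕ
  | .assoc a b j => Prod.rec (motive := fun _ => ℕ) (fun vL vR =>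
      nvm (plus.R.get b) vL (Nat.mul (nat_lit 4) (nvm (plus.L.get a) vR (nat_lit 0))))
      (nth (Zab T i a b) (nat_lit 0, nat_lit 0) j)
  | .ev y1 y2 y3 c l =>
      force (lieV (fun j => bif Nat.beq j i then plus else T j) c l) fun v =>
      force (iw (lm c l)) fun j =>
        symV (fun j => bif Nat.beq j i then plus else T j) y1 y2 y3 j v

/-- Evaluate the relations; their upper parts must vanish. -/
noncomputable def evRels (T : ℕ → Cell) (i n : ℕ) (plus : Cell) (rels : List Rel) :
    (List ℕ → Bool) → Bool :=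
  List.rec (motive := fun _ => (List ℕ → Bool) → Bool) (fun k => k [])
    (fun r _ ih k => okRel i r && force (evRel T i plus r) fun v =>
      Nat.beq (shr v n) (nat_lit 0) && ih fun l => k (v :: l)) rels

/-- The rows `lam` combine the relations to the unit vectors `g, g + 1, …, n - 1`. -/
noncomputable def lamChk (n K : ℕ) (rho lam : List ℕ) : ℕ → Bool :=
  List.rec (motive := fun _ => ℕ → Bool) (fun g => Nat.ble n g)
    (fun d _ ih g => Nat.beq (nvm rho (nrm (unf K d)) (nat_lit 0)) (shl (nat_lit 1) g) &&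
      ih (Nat.succ g)) lam

/-- The upper parts of the computed rows are the given rows. -/
noncomputable def cmp (n : ℕ) (A : List ℕ) : List ℕ → Bool :=
  List.rec (motive := fun _ => List ℕ → Bool)
    (fun C => List.rec (motive := fun _ => Bool) true (fun _ _ _ => false) C)
    (fun r _ ih C => List.rec (motive := fun _ => Bool) false
      (fun c C' _ => Nat.beq (shr r n) c && ih C') C) A

/-- The certificate of one weight. -/
structure Prog where
  /-- codes of the basis elements -/
  NP : ℕ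
  /-- unpacking constant -/
  K : ℕ
  /-- codes and coordinates of the new leading words -/
  GP : List (ℕ × ℕ)
  /-- instructions -/
  P : T3 (ℕ × ℕ)
  /-- relations -/
  rels : List Rel
  /-- unpacking constant -/
  KL : ℕ
  /-- inverse matrix -/
  lam : List ℕ

/-- The check of one weight. -/
noncomputable def check (T : ℕ → Cell) (i : ℕ) (pr : Prog) : Bool :=
  force pr.GP.length fun n => force (T i).dim fun dim =>
  Nat.ble (Nat.add n dim) (nat_lit 500) && Nat.ble pr.rels.length (nat_lit 500) &&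
  stage T i n dim pr.NP pr.K pr.GP (nat_lit 0) pr.P.a
    ⟨([], pdim T i (nat_lit 0)), ([], pdim T i (nat_lit 1)), ([], pdim T i (nat_lit 2))⟩ fun L0 R1 =>
  stage T i n dim pr.NP pr.K pr.GP (nat_lit 1) pr.P.b R1 fun L1 R2 =>
  stage T i n dim pr.NP pr.K pr.GP (nat_lit 2) pr.P.c R2 fun L2 R3 =>
  Nat.beq R3.a.2 (nat_lit 0) && Nat.beq R3.b.2 (nat_lit 0) && Nat.beq R3.c.2 (nat_lit 0) &&
  cmp n L0 (T i).L.a && cmp n L1 (T i).L.b && cmp n L2 (T i).L.c &&
  cmp n R3.a.1 (T i).R.a && cmp n R3.b.1 (T i).R.b && cmp n R3.c.1 (T i).R.c &&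
  evRels T i n ⟨Nat.add n dim, ⟨L0, L1, L2⟩, ⟨R3.a.1, R3.b.1, R3.c.1⟩⟩ pr.rels fun rho =>
    lamChk n pr.KL rho pr.lam (nat_lit 0)

/-- `x_a ^ k` times the vector `F` of the weight `j` minus `k` letters `a`. -/
noncomputable def pw (T : ℕ → Cell) (a : ℕ) (F : ℕ → ℕ) (k : ℕ) : ℕ → ℕ :=
  Nat.rec (motive := fun _ => ℕ → ℕ) (fun j => F j)
    (fun _ ih j => force (Nat.sub j (st a)) fun j' => lmul T a j' (ih j')) k

/-- `∑_{k ≤ m} C(d, k) x_a ^ k F(j - k a)`. -/
noncomputable def passAux (T : ℕ → Cell) (a : ℕ) (F : ℕ → ℕ) (d j m : ℕ) : ℕ :=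
  Nat.rec (motive := fun _ => ℕ) (F j)
    (fun k ih => nadd ih (Nat.mul (Nat.choose d (Nat.succ k)) (pw T a F (Nat.succ k) j))) m

/-- The coordinates of `Mpow x m` on `x ^ a y ^ b z ^ c`. -/
noncomputable def mpV (T : ℕ → Cell) (m : ℕ) : ℕ → ℕ :=
  Nat.rec (motive := fun _ => ℕ → ℕ) (fun j => bif Nat.beq j (nat_lit 0) then nat_lit 1 else nat_lit 0)
    (fun _ ih j => force (j / 40) fun d0 => passAux T (nat_lit 0)
      (fun j1 => force (j1 / 8 % 5) fun d1 => passAux T (nat_lit 1)
        (fun j2 => force (j2 % 8) fun d2 => passAux T (nat_lit 2) ih d2 j2 d2) d1 j1 d1) d0 j d0) m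

/-- The final check at weight `(4, 4, 4)`. -/
noncomputable def topChk (T : ℕ → Cell) : Bool :=
  Nat.beq (nadd (nadd (nadd (nadd (mpV T (nat_lit 0) (nat_lit 196)) (mpV T (nat_lit 1) (nat_lit 196)))
    (mpV T (nat_lit 2) (nat_lit 196))) (mpV T (nat_lit 3) (nat_lit 196)))
    (mpV T (nat_lit 4) (nat_lit 196))) (nat_lit 0)

end Kos.Chk
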