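import Mathlib

/-!
# Multilinear parts of powers of a product (`conv`, `Mpow`, `EE`), sums over sublists (`tot`)
-/

namespace Kos

variable {α β : Type*} {A B : Type*} [Ring A] [Ring B]

/-- `conv s F G = ∑ F s₁ * G s₂` over all splittings of `s` into complementary sublists. -/
def conv : List α → (List α → A) → (List α → A) → A
  | [], F, G => F [] * G []
  | a :: s, F, G => conv s (fun t => F (a :: t)) G + conv s F (fun t => G (a :: t))

/-- The unit for `conv`. -/
def delta : List α → A
  | [] => 1
  | _ :: _ => 0

/-- `Mpow x j s` is the multilinear part of `(∏_{a ∈ s} (1 + x a)) ^ j`. -/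
def Mpow (x : α → A) : ℕ → List α → A
  | 0 => delta
  | j + 1 => fun s => conv s (fun t => (t.map x).prod) (Mpow x j)

/-- `EE x s` is the multilinear part of `1 + g + g ^ 2 + g ^ 3 + g ^ 4`, `g = ∏_{a ∈ s} (1 + x a)`. -/
def EE (x : α → A) (s : List α) : A := ∑ j ∈ Finset.range 5, Mpow x j s

/-- The sum of `F t` over all sublists `t` of `s`. -/
def tot {M : Type*} [AddCommMonoid M] : List α → (List α → M) → M
  | [], F => F []
  | a :: s, F => tot s F + tot s (fun t => F (a :: t))

/-- The value of a bracket monomial in an associative ring (bracket = ring commutator). -/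
def rmon (x : α → A) : FreeMagma α → A
  | .of a => x a
  | .mul s t => rmon x s * rmon x t - rmon x t * rmon x s

@[simp] theorem conv_nil (F G : List α → A) : conv [] F G = F [] * G [] := rfl

theorem conv_cons (a : α) (s : List α) (F G : List α → A) :
    conv (a :: s) F G = conv s (fun t => F (a :: t)) G + conv s F (fun t => G (a :: t)) := rfl

theorem Mpow_succ (x : α → A) (j : ℕ) (s : List α) :
    Mpow x (j + 1) s = conv s (fun t => (t.map x).prod) (Mpow x j) := rfl

theorem conv_add_left (s : List α) (F F' G : List α → A) :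
    conv s (fun t => F t + F' t) G = conv s F G + conv s F' G := by
  induction s generalizing F F' G with
  | nil => simp [add_mul]
  | cons a s ih => simp only [conv_cons]; rw [ih, ih]; abel

theorem conv_add_right (s : List α) (F G G' : List α → A) :
    conv s F (fun t => G t + G' t) = conv s F G + conv s F G' := by
  induction s generalizing F G G' with
  | nil => simp [mul_add]
  | cons a s ih => simp only [conv_cons]; rw [ih, ih]; abel

theorem conv_mul_left (s : List α) (c : A) (F G : List α → A) :
    conv s (fun t => c * F t) G = c * conv s F G := by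
  induction s generalizing F G with
  | nil => simp [mul_assoc]
  | cons a s ih => simp only [conv_cons]; rw [ih, ih, mul_add]

theorem conv_eq_zero (s : List α) (F G : List α → A) (h : ∀ t t', F t * G t' = 0) :
    conv s F G = 0 := by
  induction s generalizing F G with
  | nil => simp [h]
  | cons a s ih =>
    rw [conv_cons, ih _ _ (fun t t' => h _ _), ih _ _ (fun t t' => h _ _), add_zero]

theorem conv_map (f : β → α) (s : List β) (F G : List α → A) :
    conv (s.map f) F G = conv s (fun t => F (t.map f)) (fun t => G (t.map f)) := by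
  induction s generalizing F G with
  | nil => simp
  | cons a s ih => simp only [List.map_cons, conv_cons, ih]

theorem Mpow_map (x : α → A) (f : β → α) (j : ℕ) (s : List β) :
    Mpow x j (s.map f) = Mpow (fun b => x (f b)) j s := by
  induction j generalizing s with
  | zero => cases s <;> rfl
  | succ j ih =>
    rw [Mpow_succ, Mpow_succ, conv_map]
    congr 1
    · funext t; rw [List.map_map]; rfl
    · funext t; exact ih t

theorem EE_map (x : α → A) (f : β → α) (s : List β) :
    EE x (s.map f) = EE (fun b => x (f b)) s := by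
  simp only [EE, Mpow_map]

theorem EE_eq_id (x : α → A) (s : List α) : EE x s = EE id (s.map x) := by
  rw [EE_map]; rfl

theorem Mpow_nil (x : α → A) (j : ℕ) : Mpow x j [] = 1 := by
  induction j with
  | zero => rfl
  | succ j ih => rw [Mpow_succ, conv_nil, ih]; simp

theorem EE_nil (x : α → A) : EE x [] = 5 := by
  simp [EE, Mpow_nil]

/-! ### Graded relations -/

section grel

variable {Γ : Type*} [AddCommMonoid Γ] (R : Γ → A → B → Prop) (wt : α → Γ) (P : α → Prop)

theorem conv_grel (hadd : ∀ κ a b a' b', R κ a b → R κ a' b' → R κ (a + a') (b + b'))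
    (hmul : ∀ κ κ' a b a' b', R κ a b → R κ' a' b' → R (κ + κ') (a * a') (b * b'))
    (s : List α) (hs : ∀ a ∈ s, P a) (κ κ' : Γ) (F G : List α → A) (F' G' : List α → B)
    (hF : ∀ t, (∀ a ∈ t, P a) → R (κ + (t.map wt).sum) (F t) (F' t))
    (hG : ∀ t, (∀ a ∈ t, P a) → R (κ' + (t.map wt).sum) (G t) (G' t)) :
    R (κ + κ' + (s.map wt).sum) (conv s F G) (conv s F' G') := by
  induction s generalizing F G F' G' κ κ' with
  | nil => simpa using hmul _ _ _ _ _ _ (hF [] (by simp)) (hG [] (by simp))
  | cons a s ih =>
    have ha : P a := hs a (by simp)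
    have hs' : ∀ b ∈ s, P b := fun b hb => hs b (by simp [hb])
    rw [conv_cons, conv_cons]
    apply hadd
    · have := ih hs' (κ + wt a) κ' (fun t => F (a :: t)) G (fun t => F' (a :: t)) G'
        (fun t ht => by
          have := hF (a :: t) (by simpa [ha] using ht)
          simpa [add_assoc] using this) hG
      rwa [show κ + wt a + κ' + (s.map wt).sum = κ + κ' + ((a :: s).map wt).sum by
        simp only [List.map_cons, List.sum_cons]; abel] at this
    · have := ih hs' κ (κ' + wt a) F (fun t => G (a :: t)) F' (fun t => G' (a :: t)) hF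
        (fun t ht => by
          have := hG (a :: t) (by simpa [ha] using ht)
          simpa [add_assoc] using this)
      rwa [show κ + (κ' + wt a) + (s.map wt).sum = κ + κ' + ((a :: s).map wt).sum by
        simp only [List.map_cons, List.sum_cons]; abel] at this

theorem prod_grel (h1 : R 0 1 1)
    (hmul : ∀ κ κ' a b a' b', R κ a b → R κ' a' b' → R (κ + κ') (a * a') (b * b'))
    (x : α → A) (y : α → B) (hx : ∀ a, P a → R (wt a) (x a) (y a))
    (s : List α) (hs : ∀ a ∈ s, P a) : R (s.map wt).sum (s.map x).prod (s.map y).prod := by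
  induction s with
  | nil => simpa using h1
  | cons a s ih =>
    simp only [List.map_cons, List.sum_cons, List.prod_cons]
    exact hmul _ _ _ _ _ _ (hx a (hs a (by simp))) (ih fun b hb => hs b (by simp [hb]))

theorem Mpow_grel (h0 : ∀ κ, R κ 0 0) (h1 : R 0 1 1)
    (hadd : ∀ κ a b a' b', R κ a b → R κ a' b' → R κ (a + a') (b + b'))
    (hmul : ∀ κ κ' a b a' b', R κ a b → R κ' a' b' → R (κ + κ') (a * a') (b * b'))
    (x : α → A) (y : α → B) (hx : ∀ a, P a → R (wt a) (x a) (y a)) (j : ℕ)
    (s : List α) (hs : ∀ a ∈ s, P a) : R (s.map wt).sum (Mpow x j s) (Mpow y j s) := by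
  induction j generalizing s with
  | zero =>
    cases s with
    | nil => simpa [Mpow, delta] using h1
    | cons a s => exact h0 _
  | succ j ih =>
    have := conv_grel R wt P hadd hmul s hs 0 0 (fun t => (t.map x).prod) (Mpow x j)
      (fun t => (t.map y).prod) (Mpow y j)
      (fun t ht => by simpa using prod_grel R wt P h1 hmul x y hx t ht)
      (fun t ht => by simpa using ih t ht)
    simpa [Mpow_succ] using this

/-- `EE` respects every graded relation that is closed under `0, 1, +, *`. -/
theorem EE_grel (h0 : ∀ κ, R κ 0 0) (h1 : R 0 1 1)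
    (hadd : ∀ κ a b a' b', R κ a b → R κ a' b' → R κ (a + a') (b + b'))
    (hmul : ∀ κ κ' a b a' b', R κ a b → R κ' a' b' → R (κ + κ') (a * a') (b * b'))
    (x : α → A) (y : α → B) (hx : ∀ a, P a → R (wt a) (x a) (y a))
    (s : List α) (hs : ∀ a ∈ s, P a) : R (s.map wt).sum (EE x s) (EE y s) := by
  have h := fun j => Mpow_grel R wt P h0 h1 hadd hmul x y hx j s hs
  simp only [EE, Finset.sum_range_succ, Finset.sum_range_zero, zero_add]
  exact hadd _ _ _ _ _ (hadd _ _ _ _ _ (hadd _ _ _ _ _ (hadd _ _ _ _ _ (h 0) (h 1)) (h 2)) (h 3))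
    (h 4)

end grel

/-- `EE` respects every relation that is closed under `0, 1, +, *`. -/
theorem EE_rel (R : A → B → Prop) (h0 : R 0 0) (h1 : R 1 1)
    (hadd : ∀ a b a' b', R a b → R a' b' → R (a + a') (b + b'))
    (hmul : ∀ a b a' b', R a b → R a' b' → R (a * a') (b * b'))
    (x : α → A) (y : α → B) (s : List α) (hx : ∀ a ∈ s, R (x a) (y a)) :
    R (EE x s) (EE y s) :=
  EE_grel (Γ := ℕ) (fun _ => R) (fun _ => 0) (fun a => R (x a) (y a)) (fun _ => h0) h1
    (fun _ => hadd) (fun _ _ => hmul) x y (fun _ h => h) s hx

theorem map_EE (φ : A →+* B) (x : α → A) (s : List α) :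
    φ (EE x s) = EE (fun a => φ (x a)) s :=
  EE_rel (fun a b => φ a = b) (map_zero φ) (map_one φ)
    (fun a b a' b' h h' => by rw [map_add, h, h']) (fun a b a' b' h h' => by rw [map_mul, h, h'])
    x _ s (fun _ _ => rfl)

theorem EE_congr {x y : α → A} {s : List α} (h : ∀ a ∈ s, x a = y a) : EE x s = EE y s :=
  EE_rel (fun a b => a = b) rfl rfl (fun _ _ _ _ h h' => by rw [h, h'])
    (fun _ _ _ _ h h' => by rw [h, h']) x y s h

/-! ### Sums over sublists -/

theorem tot_cons {M : Type*} [AddCommMonoid M] (a : α) (s : List α) (F : List α → M) :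
    tot (a :: s) F = tot s F + tot s (fun t => F (a :: t)) := rfl

theorem tot_add {M : Type*} [AddCommMonoid M] (s : List α) (F G : List α → M) :
    tot s (fun t => F t + G t) = tot s F + tot s G := by
  induction s generalizing F G with
  | nil => rfl
  | cons a s ih => simp only [tot_cons]; rw [ih, ih]; abel

theorem map_tot {M N : Type*} [AddCommMonoid M] [AddCommMonoid N] (φ : M →+ N) (s : List α)
    (F : List α → M) : φ (tot s F) = tot s (fun t => φ (F t)) := by
  induction s generalizing F with
  | nil => rfl
  | cons a s ih => simp only [tot_cons, map_add, ih]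

theorem tot_congr {M : Type*} [AddCommMonoid M] (P : α → Prop) (s : List α) (hs : ∀ a ∈ s, P a)
    (F G : List α → M) (h : ∀ t, (∀ a ∈ t, P a) → F t = G t) : tot s F = tot s G := by
  induction s generalizing F G with
  | nil => exact h [] (by simp)
  | cons a s ih =>
    have ha : P a := hs a (by simp)
    have hs' : ∀ b ∈ s, P b := fun b hb => hs b (by simp [hb])
    rw [tot_cons, tot_cons, ih hs' F G h,
      ih hs' (fun t => F (a :: t)) (fun t => G (a :: t)) (fun t ht => h _ (by simpa [ha] using ht))]

theorem tot_mem {M : Type*} [AddCommMonoid M] (H : AddSubmonoid M) (s : List α)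
    (F : List α → M) (h : ∀ t, F t ∈ H) : tot s F ∈ H := by
  induction s generalizing F with
  | nil => exact h []
  | cons a s ih => exact H.add_mem (ih F h) (ih _ fun t => h _)

theorem tot_mul_left (s : List α) (c : A) (F : List α → A) :
    tot s (fun t => c * F t) = c * tot s F :=
  (map_tot (AddMonoidHom.mulLeft c) s F).symm

theorem tot_mul_right (s : List α) (c : A) (F : List α → A) :
    tot s (fun t => F t * c) = tot s F * c :=
  (map_tot (AddMonoidHom.mulRight c) s F).symm

theorem tot_zero {M : Type*} [AddCommMonoid M] (s : List α) : tot s (fun _ => (0 : M)) = 0 := by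
  induction s with
  | nil => rfl
  | cons a s ih => simp [tot_cons, ih]

theorem tot_prod (x : α → A) (s : List α) :
    tot s (fun t => (t.map x).prod) = (s.map fun a => 1 + x a).prod := by
  induction s with
  | nil => rfl
  | cons a s ih =>
    simp only [tot_cons, List.map_cons, List.prod_cons]
    rw [tot_mul_left, ih, add_mul, one_mul]

theorem tot_delta (s : List α) : tot s (delta : List α → A) = 1 := by
  induction s with
  | nil => rfl
  | cons a s ih => rw [tot_cons, ih]; simp [delta, tot_zero]

/-- A family of two-sided ideals of square zero. -/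
structure SqZero (I : α → A → Prop) : Prop where
  zero : ∀ a, I a 0
  add : ∀ a u v, I a u → I a v → I a (u + v)
  mul_left : ∀ a u v, I a v → I a (u * v)
  mul_right : ∀ a u v, I a u → I a (u * v)
  sq : ∀ a u v, I a u → I a v → u * v = 0

section sq

variable {I : α → A → Prop} (hI : SqZero I)
include hI

theorem conv_mem_left (a : α) (s : List α) (F G : List α → A) (h : ∀ t, I a (F t)) :
    I a (conv s F G) := by
  induction s generalizing F G with
  | nil => exact hI.mul_right _ _ _ (h _)
  | cons b s ih => exact hI.add _ _ _ (ih _ _ fun t => h _) (ih _ _ h)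

theorem conv_mem_right (a : α) (s : List α) (F G : List α → A) (h : ∀ t, I a (G t)) :
    I a (conv s F G) := by
  induction s generalizing F G with
  | nil => exact hI.mul_left _ _ _ (h _)
  | cons b s ih => exact hI.add _ _ _ (ih _ _ h) (ih _ _ fun t => h _)

theorem conv_adapted (s : List α) (F G : List α → A) (hF : ∀ t, ∀ a ∈ t, I a (F t))
    (hG : ∀ t, ∀ a ∈ t, I a (G t)) : ∀ a ∈ s, I a (conv s F G) := by
  induction s generalizing F G with
  | nil => simp
  | cons b s ih =>
    intro a ha
    rw [conv_cons]
    rcases List.mem_cons.1 ha with rfl | ha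
    · exact hI.add _ _ _ (conv_mem_left hI _ _ _ _ fun t => hF _ _ (by simp))
        (conv_mem_right hI _ _ _ _ fun t => hG _ _ (by simp))
    · exact hI.add _ _ _ (ih _ _ (fun t c hc => hF _ _ (by simp [hc])) hG a ha)
        (ih _ _ hF (fun t c hc => hG _ _ (by simp [hc])) a ha)

theorem tot_mem_sq (a : α) (s : List α) (F : List α → A) (h : ∀ t, I a (F t)) : I a (tot s F) := by
  induction s generalizing F with
  | nil => exact h []
  | cons b s ih => exact hI.add _ _ _ (ih F h) (ih _ fun t => h _)

theorem tot_conv (s : List α) (F G : List α → A) (hF : ∀ t, ∀ a ∈ t, I a (F t))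
    (hG : ∀ t, ∀ a ∈ t, I a (G t)) : tot s (fun t => conv t F G) = tot s F * tot s G := by
  induction s generalizing F G with
  | nil => rfl
  | cons a s ih =>
    simp only [tot_cons, conv_cons]
    rw [tot_add, ih F G hF hG, ih _ G (fun t c hc => hF _ _ (by simp [hc])) hG,
      ih F _ hF (fun t c hc => hG _ _ (by simp [hc])), add_mul, mul_add, mul_add,
      hI.sq a _ _ (tot_mem_sq hI a s (fun t => F (a :: t)) fun t => hF _ _ (by simp))
        (tot_mem_sq hI a s (fun t => G (a :: t)) fun t => hG _ _ (by simp))]
    abel

theorem prod_adapted (x : α → A) (hx : ∀ a, I a (x a)) (t : List α) :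
    ∀ a ∈ t, I a (t.map x).prod := by
  induction t with
  | nil => simp
  | cons b t ih =>
    intro a ha
    simp only [List.map_cons, List.prod_cons]
    rcases List.mem_cons.1 ha with rfl | ha
    · exact hI.mul_right _ _ _ (hx _)
    · exact hI.mul_left _ _ _ (ih a ha)

theorem Mpow_adapted (x : α → A) (hx : ∀ a, I a (x a)) (j : ℕ) (t : List α) :
    ∀ a ∈ t, I a (Mpow x j t) := by
  induction j generalizing t with
  | zero =>
    cases t with
    | nil => simp
    | cons b t => exact fun a _ => hI.zero a
  | succ j ih => exact conv_adapted hI t _ _ (prod_adapted hI x hx) ih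

theorem tot_Mpow (x : α → A) (hx : ∀ a, I a (x a)) (j : ℕ) (s : List α) :
    tot s (Mpow x j) = (s.map fun a => 1 + x a).prod ^ j := by
  induction j with
  | zero => rw [pow_zero]; exact tot_delta s
  | succ j ih =>
    have := tot_conv hI s _ _ (prod_adapted hI x hx) (Mpow_adapted hI x hx j)
    rw [pow_succ', ← ih, ← tot_prod, ← this]; rfl

/-- If `x a` lies in an ideal of square zero for each `a`, then
`1 + g + ⋯ + g ^ 4 = ∑_{t sublist of s} EE x t` for `g = ∏_{a ∈ s} (1 + x a)`. -/
theorem tot_EE (x : α → A) (hx : ∀ a, I a (x a)) (s : List α) :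
    tot s (EE x) = ∑ j ∈ Finset.range 5, (s.map fun a => 1 + x a).prod ^ j := by
  have : EE x = fun t => Mpow x 0 t + Mpow x 1 t + Mpow x 2 t + Mpow x 3 t + Mpow x 4 t := by
    funext t; simp [EE, Finset.sum_range_succ]
  rw [this]
  simp only [tot_add, Finset.sum_range_succ, Finset.sum_range_zero, zero_add]
  rw [← tot_Mpow hI x hx, ← tot_Mpow hI x hx, ← tot_Mpow hI x hx, ← tot_Mpow hI x hx,
    ← tot_Mpow hI x hx]

end sq

/-! ### Three-term relations: additivity and the swap formula -/

theorem conv_three (p : List α) (u v w : α) (q : List α) (F G : List α → A)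
    (hF : ∀ p q, F (p ++ u :: q) = F (p ++ v :: q) + F (p ++ w :: q))
    (hG : ∀ p q, G (p ++ u :: q) = G (p ++ v :: q) + G (p ++ w :: q)) :
    conv (p ++ u :: q) F G = conv (p ++ v :: q) F G + conv (p ++ w :: q) F G := by
  induction p generalizing F G with
  | nil =>
    simp only [List.nil_append, conv_cons]
    rw [show (fun t => F (u :: t)) = fun t => F (v :: t) + F (w :: t) from funext (hF []),
      show (fun t => G (u :: t)) = fun t => G (v :: t) + G (w :: t) from funext (hG []),
      conv_add_left, conv_add_right]
    abel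
  | cons a p ih =>
    simp only [List.cons_append, conv_cons]
    rw [ih _ G (fun p q => hF (a :: p) q) hG, ih F _ hF (fun p q => hG (a :: p) q)]
    abel

theorem EE_three (x : α → A) (u v w : α) (h : x u = x v + x w) (p q : List α) :
    EE x (p ++ u :: q) = EE x (p ++ v :: q) + EE x (p ++ w :: q) := by
  have hM : ∀ j p q, Mpow x j (p ++ u :: q) = Mpow x j (p ++ v :: q) + Mpow x j (p ++ w :: q) := by
    intro j
    induction j with
    | zero => intro p q; cases p <;> simp [Mpow, delta]
    | succ j ih =>
      intro p q
      exact conv_three p u v w q _ _ (fun p q => by simp [h, mul_add, add_mul]) ih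
  simp only [EE, hM, Finset.sum_add_distrib]

theorem EE_zero_entry (x : α → A) (u : α) (h : x u = 0) (p q : List α) :
    EE x (p ++ u :: q) = 0 := by
  have := EE_three x u u u (by simp [h]) p q
  simpa using this

theorem conv_swap (p : List α) (u v w : α) (q : List α) (F G : List α → A)
    (hF : ∀ p q, F (p ++ u :: v :: q) = F (p ++ v :: u :: q) + F (p ++ w :: q))
    (hG : ∀ p q, G (p ++ u :: v :: q) = G (p ++ v :: u :: q) + G (p ++ w :: q)) :
    conv (p ++ u :: v :: q) F G = conv (p ++ v :: u :: q) F G + conv (p ++ w :: q) F G := by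
  induction p generalizing F G with
  | nil =>
    simp only [List.nil_append, conv_cons]
    rw [show (fun t => F (u :: v :: t)) = fun t => F (v :: u :: t) + F (w :: t) from
        funext (hF []),
      show (fun t => G (u :: v :: t)) = fun t => G (v :: u :: t) + G (w :: t) from funext (hG []),
      conv_add_left, conv_add_right]
    abel
  | cons a p ih =>
    simp only [List.cons_append, conv_cons]
    rw [ih _ G (fun p q => hF (a :: p) q) hG, ih F _ hF (fun p q => hG (a :: p) q)]
    abel

/-- The swap formula: exchanging two neighbours costs a term with their commutator. -/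
theorem EE_swap (x : α → A) (u v w : α) (h : x w = x u * x v - x v * x u) (p q : List α) :
    EE x (p ++ u :: v :: q) = EE x (p ++ v :: u :: q) + EE x (p ++ w :: q) := by
  have hM : ∀ j p q, Mpow x j (p ++ u :: v :: q) =
      Mpow x j (p ++ v :: u :: q) + Mpow x j (p ++ w :: q) := by
    intro j
    induction j with
    | zero => intro p q; cases p <;> simp [Mpow, delta]
    | succ j ih =>
      intro p q
      exact conv_swap p u v w q _ _ (fun p q => by
        simp only [List.map_append, List.map_cons, List.prod_append, List.prod_cons, h]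
        noncomm_ring) ih
  simp only [EE, hM, Finset.sum_add_distrib]

/-- In characteristic five, `1 + g + ⋯ + g ^ 4 = (g - 1) ^ 4`. -/
theorem geom_five (h5 : (5 : A) = 0) (g : A) : ∑ j ∈ Finset.range 5, g ^ j = (g - 1) ^ 4 := by
  have : (g - 1) ^ 4 = ∑ j ∈ Finset.range 5, g ^ j + 5 * (g ^ 2 - g ^ 3 - g) := by
    simp only [Finset.sum_range_succ, Finset.sum_range_zero]; noncomm_ring
  rw [this, h5, zero_mul, add_zero]

end Kos
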