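import Mathlib

/-!
# The associated Lie ring of a group, the Kostrikin group `K p`, identities

Definitions for `MP_80c021_al`.  Indices are shifted by one: `gam G n` is `γ_{n+1}(G)`.
-/

namespace Kos

open scoped commutatorElement DirectSum

section AssocLie

variable (G : Type*) [Group G]

/-- `gam G n = γ_{n+1}(G)`, the lower central series (`gam G 0 = G`). -/
def gam (n : ℕ) : Subgroup G := (⊤ : Subgroup G).lowerCentralSeries n

instance gam_normal (n : ℕ) : (gam G n).Normal := by
  unfold gam; infer_instance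

variable {G}

theorem gam_zero : gam G 0 = ⊤ := rfl

theorem mem_gam_zero (x : G) : x ∈ gam G 0 := Subgroup.mem_top x

theorem gam_succ (n : ℕ) : gam G (n + 1) = ⁅gam G n, ⊤⁆ := rfl

theorem gam_anti {m n : ℕ} (h : m ≤ n) : gam G n ≤ gam G m :=
  Subgroup.lowerCentralSeries_antitone _ h

theorem three_subgroups {A B C N : Subgroup G} [N.Normal] (h1 : ⁅⁅B, C⁆, A⁆ ≤ N)
    (h2 : ⁅⁅C, A⁆, B⁆ ≤ N) : ⁅⁅A, B⁆, C⁆ ≤ N := by
  have key : ∀ K : Subgroup G, K ≤ N ↔ K.map (QuotientGroup.mk' N) = ⊥ := by
    intro K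
    rw [Subgroup.map_eq_bot_iff, QuotientGroup.ker_mk']
  rw [key] at h1 h2 ⊢
  simp only [Subgroup.map_commutator] at h1 h2 ⊢
  exact Subgroup.commutator_commutator_eq_bot_of_rotate h1 h2

theorem commutator_gam (j : ℕ) : ∀ i : ℕ, ⁅gam G i, gam G j⁆ ≤ gam G (i + j + 1) := by
  induction j with
  | zero => intro i; exact le_rfl
  | succ j ih =>
    intro i
    rw [Subgroup.commutator_comm, gam_succ j]
    apply three_subgroups
    · rw [Subgroup.commutator_comm ⊤ (gam G i), ← gam_succ]
      have := ih (i + 1)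
      rwa [show i + 1 + j + 1 = i + (j + 1) + 1 by ring] at this
    · exact Subgroup.commutator_mono (ih i) le_rfl

theorem comm_mem_gam {i j n : ℕ} {x y : G} (hx : x ∈ gam G i) (hy : y ∈ gam G j)
    (h : n ≤ i + j + 1) : ⁅x, y⁆ ∈ gam G n :=
  gam_anti h (commutator_gam j i (Subgroup.commutator_mem_commutator hx hy))

variable (G)

/-- The factor `γ_{n+1}(G) / γ_{n+2}(G)` (a multiplicative group). -/
def LayerM (n : ℕ) : Type _ := gam G n ⧸ (gam G (n + 1)).subgroupOf (gam G n)

instance (n : ℕ) : CommGroup (LayerM G n) :=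
  { (inferInstance : Group (gam G n ⧸ (gam G (n + 1)).subgroupOf (gam G n))) with
    mul_comm := by
      rintro ⟨a⟩ ⟨b⟩
      change ((a * b : gam G n) : gam G n ⧸ (gam G (n + 1)).subgroupOf (gam G n)) =
        ((b * a : gam G n) : gam G n ⧸ (gam G (n + 1)).subgroupOf (gam G n))
      rw [QuotientGroup.eq, Subgroup.mem_subgroupOf]
      have : (((a * b)⁻¹ * (b * a) : gam G n) : G) = ⁅(b : G)⁻¹, (a : G)⁻¹⁆ := by
        simp [commutatorElement_def, mul_assoc]
      rw [this]
      exact comm_mem_gam (inv_mem b.2) (inv_mem a.2) (by omega) }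

/-- The projection `γ_{n+1}(G) → γ_{n+1}(G) / γ_{n+2}(G)`. -/
def LayerM.mk (n : ℕ) : gam G n →* LayerM G n :=
  QuotientGroup.mk' ((gam G (n + 1)).subgroupOf (gam G n))

/-- The additive group `L(G) = ⨁_{i ≥ 1} γ_i(G) / γ_{i+1}(G)`. -/
def AssocLie : Type _ := ⨁ n : ℕ, Additive (LayerM G n)

noncomputable instance : AddCommGroup (AssocLie G) :=
  (inferInstance : AddCommGroup (⨁ n : ℕ, Additive (LayerM G n)))

variable {G}

open Classical in
/-- The homogeneous element `g γ_{n+2}(G)` of `L(G)` for `g ∈ γ_{n+1}(G)` (junk value `0`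
otherwise). -/
noncomputable def cls (n : ℕ) (g : G) : AssocLie G :=
  if h : g ∈ gam G n then
    DirectSum.of (fun n => Additive (LayerM G n)) n (Additive.ofMul (LayerM.mk G n ⟨g, h⟩))
  else 0

theorem cls_of_mem {n : ℕ} {g : G} (h : g ∈ gam G n) : cls n g =
    DirectSum.of (fun n => Additive (LayerM G n)) n (Additive.ofMul (LayerM.mk G n ⟨g, h⟩)) :=
  dif_pos h

theorem cls_mul {n : ℕ} {g h : G} (hg : g ∈ gam G n) (hh : h ∈ gam G n) :
    cls n (g * h) = cls n g + cls n h := by
  rw [cls_of_mem hg, cls_of_mem hh, cls_of_mem (mul_mem hg hh)]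
  have : (⟨g * h, mul_mem hg hh⟩ : gam G n) = ⟨g, hg⟩ * ⟨h, hh⟩ := rfl
  rw [this, map_mul, ofMul_mul, map_add]
  rfl

theorem cls_eq_zero {n : ℕ} {g : G} (hg : g ∈ gam G (n + 1)) : cls n g = 0 := by
  have hg' : g ∈ gam G n := gam_anti (Nat.le_succ n) hg
  rw [cls_of_mem hg']
  have : LayerM.mk G n ⟨g, hg'⟩ = 1 := by
    apply (QuotientGroup.eq_one_iff _).2
    exact Subgroup.mem_subgroupOf.2 hg
  rw [this, ofMul_one, map_zero]
  rfl

theorem cls_one (n : ℕ) : cls n (1 : G) = 0 := cls_eq_zero (one_mem _)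

theorem cls_inv {n : ℕ} {g : G} (hg : g ∈ gam G n) : cls n g⁻¹ = -cls n g := by
  have := cls_mul hg (inv_mem hg)
  rw [mul_inv_cancel, cls_one] at this
  exact (neg_eq_of_add_eq_zero_right this.symm).symm

theorem cls_congr {n : ℕ} {g h : G} (hg : g ∈ gam G n) (hgh : g⁻¹ * h ∈ gam G (n + 1)) :
    cls n h = cls n g := by
  have : h = g * (g⁻¹ * h) := by group
  rw [this, cls_mul hg (gam_anti (Nat.le_succ n) hgh), cls_eq_zero hgh, add_zero]

theorem cls_conj {n : ℕ} {g : G} (hg : g ∈ gam G n) (x : G) : cls n (x * g * x⁻¹) = cls n g := by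
  apply cls_congr hg
  have : g⁻¹ * (x * g * x⁻¹) = ⁅g⁻¹, x⁆ := by simp [commutatorElement_def, mul_assoc]
  rw [this]
  exact comm_mem_gam (inv_mem hg) (mem_gam_zero x) (by omega)

/-- An additive map out of `L(G)` given by its values on the homogeneous elements. -/
noncomputable def liftAdd {R : Type*} [AddCommGroup R] (θ : ℕ → G → R)
    (hmul : ∀ n, ∀ g ∈ gam G n, ∀ h ∈ gam G n, θ n (g * h) = θ n g + θ n h)
    (hzero : ∀ n, ∀ g ∈ gam G (n + 1), θ n g = 0) : AssocLie G →+ R :=
  DirectSum.toAddMonoid fun n =>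
    MonoidHom.toAdditiveLeft
      (QuotientGroup.lift ((gam G (n + 1)).subgroupOf (gam G n))
        (MonoidHom.mk' (fun g : gam G n => Multiplicative.ofAdd (θ n g))
          (fun a b => by rw [← ofAdd_add, ← hmul n _ a.2 _ b.2]; rfl))
        (fun g hg => by
          change Multiplicative.ofAdd (θ n g) = 1
          rw [hzero n _ (Subgroup.mem_subgroupOf.1 hg)]; rfl))

theorem liftAdd_cls {R : Type*} [AddCommGroup R] (θ : ℕ → G → R) (hmul hzero) {n : ℕ} {g : G}
    (hg : g ∈ gam G n) : liftAdd θ hmul hzero (cls n g) = θ n g := by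
  rw [cls_of_mem hg]
  exact DirectSum.toAddMonoid_of _ _ _

theorem AssocLie.induction_on {P : AssocLie G → Prop} (u : AssocLie G) (h0 : P 0)
    (hcls : ∀ n, ∀ g ∈ gam G n, P (cls n g)) (hadd : ∀ a b, P a → P b → P (a + b)) : P u := by
  refine DirectSum.induction_on (β := fun n => Additive (LayerM G n)) u h0 ?_ hadd
  rintro n ⟨g⟩
  have := hcls n g g.2
  rwa [cls_of_mem g.2] at this

theorem AssocLie.addHom_ext {R : Type*} [AddCommGroup R] {f₁ f₂ : AssocLie G →+ R}
    (h : ∀ n, ∀ g ∈ gam G n, f₁ (cls n g) = f₂ (cls n g)) : f₁ = f₂ := by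
  ext u
  induction u using AssocLie.induction_on with
  | h0 => simp
  | hcls n g hg => exact h n g hg
  | hadd a b ha hb => rw [map_add, map_add, ha, hb]

theorem cls_comm_mul_right {i j : ℕ} {x g h : G} (hx : x ∈ gam G i) (hg : g ∈ gam G j)
    (hh : h ∈ gam G j) :
    cls (i + j + 1) ⁅x, g * h⁆ = cls (i + j + 1) ⁅x, g⁆ + cls (i + j + 1) ⁅x, h⁆ := by
  have : ⁅x, g * h⁆ = ⁅x, g⁆ * (g * ⁅x, h⁆ * g⁻¹) := by simp [commutatorElement_def, mul_assoc]
  rw [this, cls_mul (comm_mem_gam hx hg le_rfl)
    ((gam_normal G _).conj_mem _ (comm_mem_gam hx hh le_rfl) g), cls_conj (comm_mem_gam hx hh le_rfl)]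

theorem cls_comm_mul_left {i j : ℕ} {g h y : G} (hg : g ∈ gam G i) (hh : h ∈ gam G i)
    (hy : y ∈ gam G j) :
    cls (i + j + 1) ⁅g * h, y⁆ = cls (i + j + 1) ⁅g, y⁆ + cls (i + j + 1) ⁅h, y⁆ := by
  rw [commutatorElement_mul_left_eq_conj_mul, cls_mul
    ((gam_normal G _).conj_mem _ (comm_mem_gam hh hy le_rfl) g) (comm_mem_gam hg hy le_rfl),
    cls_conj (comm_mem_gam hh hy le_rfl), add_comm]

open Classical in
/-- `y γ_{j+2} ↦ [x, y] γ_{i+j+3}` for `x ∈ γ_{i+1}`, extended additively. -/
noncomputable def brCls (i : ℕ) (x : G) : AssocLie G →+ AssocLie G :=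
  if hx : x ∈ gam G i then
    liftAdd (fun j y => cls (i + j + 1) ⁅x, y⁆)
      (fun _ _ hg _ hh => cls_comm_mul_right hx hg hh)
      (fun _ _ hg => cls_eq_zero (comm_mem_gam hx hg (by omega)))
  else 0

theorem brCls_cls {i j : ℕ} {x y : G} (hx : x ∈ gam G i) (hy : y ∈ gam G j) :
    brCls i x (cls j y) = cls (i + j + 1) ⁅x, y⁆ := by
  rw [brCls, dif_pos hx, liftAdd_cls _ _ _ hy]

/-- The bracket of `L(G)`: the biadditive extension of
`[x γ_{i+2}, y γ_{j+2}] = [x, y] γ_{i+j+3}`. -/
noncomputable def br : AssocLie G →+ AssocLie G →+ AssocLie G :=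
  liftAdd brCls
    (fun i g hg h hh => AssocLie.addHom_ext fun j y hy => by
      rw [AddMonoidHom.add_apply, brCls_cls (mul_mem hg hh) hy, brCls_cls hg hy, brCls_cls hh hy,
        cls_comm_mul_left hg hh hy])
    (fun i g hg => AssocLie.addHom_ext fun j y hy => by
      rw [brCls_cls (gam_anti (Nat.le_succ i) hg) hy, AddMonoidHom.zero_apply]
      exact cls_eq_zero (comm_mem_gam hg hy (by omega)))

theorem br_cls {i j : ℕ} {x y : G} (hx : x ∈ gam G i) (hy : y ∈ gam G j) :
    br (cls i x) (cls j y) = cls (i + j + 1) ⁅x, y⁆ := by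
  rw [br, liftAdd_cls _ _ _ hx, brCls_cls hx hy]

theorem br_skew (a b : AssocLie G) : br a b = -br b a := by
  induction a using AssocLie.induction_on with
  | h0 => simp
  | hadd a a' ha ha' => rw [map_add, AddMonoidHom.add_apply, map_add, ha, ha', neg_add]
  | hcls i x hx =>
    induction b using AssocLie.induction_on with
    | h0 => simp
    | hadd b b' hb hb' => rw [map_add, map_add, AddMonoidHom.add_apply, hb, hb', neg_add]
    | hcls j y hy =>
      rw [br_cls hx hy, br_cls hy hx, ← commutatorElement_inv y x,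
        cls_inv (comm_mem_gam hy hx (by omega)), show i + j + 1 = j + i + 1 by omega]

theorem br_self (a : AssocLie G) : br a a = 0 := by
  induction a using AssocLie.induction_on with
  | h0 => simp
  | hcls n g hg => rw [br_cls hg hg, commutatorElement_self, cls_one]
  | hadd a b ha hb =>
    have e : br (a + b) (a + b) = br a a + br a b + (br b a + br b b) := by
      simp only [map_add, AddMonoidHom.add_apply]; abel
    rw [e, ha, hb, br_skew b a]; simp

theorem br_jacobi_cls {i j k : ℕ} {x y z : G} (hx : x ∈ gam G i) (hy : y ∈ gam G j)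
    (hz : z ∈ gam G k) :
    br (br (cls i x) (cls j y)) (cls k z) + br (br (cls j y) (cls k z)) (cls i x) +
      br (br (cls k z) (cls i x)) (cls j y) = 0 := by
  have hxy := comm_mem_gam hx hy le_rfl
  have hyz := comm_mem_gam hy hz le_rfl
  have hzx := comm_mem_gam hz hx le_rfl
  have hz' := (gam_normal G _).conj_mem _ hz y
  have hx' := (gam_normal G _).conj_mem _ hx z
  have hy' := (gam_normal G _).conj_mem _ hy x
  rw [← cls_conj hz y, ← cls_conj hx z, ← cls_conj hy x]
  conv_lhs =>
    congr
    · congr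
      · congr
        · rw [cls_conj hx z, cls_conj hy x]
      · congr
        · rw [cls_conj hy x, cls_conj hz y]
    · congr
      · rw [cls_conj hz y, cls_conj hx z]
  rw [br_cls hx hy, br_cls hy hz, br_cls hz hx, br_cls hxy hz', br_cls hyz hx', br_cls hzx hy',
    show j + k + 1 + i + 1 = i + j + 1 + k + 1 by omega,
    show k + i + 1 + j + 1 = i + j + 1 + k + 1 by omega,
    ← cls_mul (comm_mem_gam hxy hz' le_rfl) (comm_mem_gam hyz hx' (by omega)),
    ← cls_mul (mul_mem (comm_mem_gam hxy hz' le_rfl) (comm_mem_gam hyz hx' (by omega)))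
      (comm_mem_gam hzx hy' (by omega)),
    commutatorElement_commutatorElement_conj_mul, cls_one]

theorem br_jacobi (a b c : AssocLie G) : br (br a b) c + br (br b c) a + br (br c a) b = 0 := by
  induction a using AssocLie.induction_on with
  | h0 => simp
  | hadd a a' ha ha' =>
    simp only [map_add, AddMonoidHom.add_apply]
    rw [← add_zero (0 : AssocLie G)]
    nth_rewrite 1 [← ha, ← ha']; abel
  | hcls i x hx =>
    induction b using AssocLie.induction_on with
    | h0 => simp
    | hadd b b' hb hb' =>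
      simp only [map_add, AddMonoidHom.add_apply]
      rw [← add_zero (0 : AssocLie G)]
      nth_rewrite 1 [← hb, ← hb']; abel
    | hcls j y hy =>
      induction c using AssocLie.induction_on with
      | h0 => simp
      | hadd c c' hc hc' =>
        simp only [map_add, AddMonoidHom.add_apply]
        rw [← add_zero (0 : AssocLie G)]
        nth_rewrite 1 [← hc, ← hc']; abel
      | hcls k z hz => exact br_jacobi_cls hx hy hz

/-- The bracket of `L(G)` as a plain function of two arguments. -/
noncomputable def brF (a b : AssocLie G) : AssocLie G := br a b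

theorem brF_add_left (a b c : AssocLie G) : brF (a + b) c = brF a c + brF b c := by
  change br (a + b) c = br a c + br b c
  rw [map_add, AddMonoidHom.add_apply]

theorem brF_add_right (a b c : AssocLie G) : brF a (b + c) = brF a b + brF a c :=
  map_add (br a) b c

theorem brF_self (a : AssocLie G) : brF a a = 0 := br_self a

theorem brF_leibniz (a b c : AssocLie G) :
    brF a (brF b c) = brF (brF a b) c + brF b (brF a c) := by
  change br a (br b c) = br (br a b) c + br b (br a c)
  have h := br_jacobi a b c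
  rw [br_skew (br b c) a, br_skew (br c a) b, br_skew c a, map_neg, neg_neg] at h
  rw [← sub_eq_zero, ← neg_eq_zero, ← h]; abel

/-- The associated Lie ring `L(G)`. -/
noncomputable instance : LieRing (AssocLie G) where
  bracket := brF
  add_lie := brF_add_left
  lie_add := brF_add_right
  lie_self := brF_self
  leibniz_lie := brF_leibniz

/-- The defining formula of the bracket of `L(G)`. -/
theorem lie_cls {i j : ℕ} {x y : G} (hx : x ∈ gam G i) (hy : y ∈ gam G j) :
    ⁅(cls i x : AssocLie G), (cls j y : AssocLie G)⁆ = cls (i + j + 1) ⁅x, y⁆ := br_cls hx hy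

end AssocLie

section Kostrikin

/-- `G` is a locally finite group of exponent `p`. -/
def InKostrikin (p : ℕ) (G : Type) [Group G] : Prop :=
  (∀ g : G, g ^ p = 1) ∧ ∀ s : Finset G, Finite (Subgroup.closure (s : Set G))

/-- The laws of the Kostrikin variety: the words in countably many letters that vanish under every
substitution in every locally finite group of exponent `p`. -/
def laws (p : ℕ) : Subgroup (FreeGroup ℕ) where
  carrier := {w | ∀ (G : Type) [Group G], InKostrikin p G → ∀ φ : FreeGroup ℕ →* G, φ w = 1}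
  one_mem' := fun _ _ _ φ => map_one φ
  mul_mem' := fun ha hb G _ hG φ => by rw [map_mul, ha G hG φ, hb G hG φ, one_mul]
  inv_mem' := fun ha G _ hG φ => by rw [map_inv, ha G hG φ, inv_one]

instance laws_normal (p : ℕ) : (laws p).Normal :=
  ⟨fun w hw g G _ hG φ => by rw [map_mul, map_mul, hw G hG φ, mul_one, ← map_mul, mul_inv_cancel,
    map_one]⟩

/-- The free group `K(p)` of countable rank of the Kostrikin variety. -/
abbrev K (p : ℕ) : Type := FreeGroup ℕ ⧸ laws p

/-- The free Lie ring `Λ` on countably many generators. -/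
abbrev Lam : Type := FreeLieAlgebra ℤ ℕ

/-- `f ∈ Λ` is an identity of the Lie ring `L`. -/
def IsIdentity (L : Type*) [LieRing L] (f : Lam) : Prop :=
  ∀ φ : ℕ → L, FreeLieAlgebra.lift ℤ φ f = 0

/-- `S` implies `f`: `f` lies in every fully invariant ideal of `Λ` containing `S`, i.e. in the
fully invariant ideal generated by `S`. -/
def Implies (S : Set Lam) (f : Lam) : Prop :=
  ∀ I : LieIdeal ℤ Lam, (∀ s ∈ S, s ∈ I) → (∀ σ : Lam →ₗ⁅ℤ⁆ Lam, ∀ g ∈ I, σ g ∈ I) → f ∈ I

/-- The value of a bracket monomial `t` under the substitution `x` in a Lie ring. -/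
def lieMon {α L : Type*} [LieRing L] (x : α → L) : FreeMagma α → L
  | .of a => x a
  | .mul s t => ⁅lieMon x s, lieMon x t⁆

/-- The number of occurrences of the letter `i` in a bracket monomial. -/
def degIn {α : Type*} [DecidableEq α] (i : α) : FreeMagma α → ℕ
  | .of a => if a = i then 1 else 0
  | .mul s t => degIn i s + degIn i t

/-- The elements of `Λ` of degree at most `d` in each generator: integer combinations of bracket
monomials in which every generator occurs at most `d` times.  (`d = 1`: multilinear.) -/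
noncomputable def DegLE (d : ℕ) : AddSubgroup Lam :=
  AddSubgroup.closure {f | ∃ t : FreeMagma ℕ, (∀ i, degIn i t ≤ d) ∧
    f = lieMon (FreeLieAlgebra.of ℤ) t}

end Kostrikin

end Kos
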