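import Mathlib

/-!
# The ring `Eps κ A = A[[ε_k : k ∈ κ]] / (ε_k ^ 2)` as functions on finite sets with convolution
-/

namespace Kos

/-- Functions on the finite subsets of `κ`, multiplied by convolution. -/
def Eps (κ A : Type*) : Type _ := Finset κ → A

namespace Eps

variable {κ : Type*} [DecidableEq κ] {A : Type*} [Ring A]

instance : AddCommGroup (Eps κ A) := inferInstanceAs (AddCommGroup (Finset κ → A))

@[ext] theorem ext {F G : Eps κ A} (h : ∀ S, F S = G S) : F = G := funext h

@[simp] theorem zero_apply (S : Finset κ) : (0 : Eps κ A) S = 0 := rfl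
@[simp] theorem add_apply (F G : Eps κ A) (S : Finset κ) : (F + G) S = F S + G S := rfl
@[simp] theorem neg_apply (F : Eps κ A) (S : Finset κ) : (-F) S = -F S := rfl
@[simp] theorem sub_apply (F G : Eps κ A) (S : Finset κ) : (F - G) S = F S - G S := rfl
@[simp] theorem nsmul_apply (n : ℕ) (F : Eps κ A) (S : Finset κ) : (n • F) S = n • F S := rfl
@[simp] theorem zsmul_apply (n : ℤ) (F : Eps κ A) (S : Finset κ) : (n • F) S = n • F S := rfl

/-- Evaluation at `S` (the coefficient of `ε_S`). -/
def coeff (S : Finset κ) : Eps κ A →+ A where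
  toFun F := F S
  map_zero' := rfl
  map_add' _ _ := rfl

@[simp] theorem coeff_apply (S : Finset κ) (F : Eps κ A) : coeff S F = F S := rfl

theorem sum_apply {ι : Type*} (s : Finset ι) (F : ι → Eps κ A) (S : Finset κ) :
    (∑ i ∈ s, F i) S = ∑ i ∈ s, F i S := map_sum (coeff S) F s

/-- The monomial `ε_m a`; it is `0` if the multiset `m` has a repeated element. -/
def mono (m : Multiset κ) (a : A) : Eps κ A := fun S => if S.val = m then a else 0

theorem mono_apply (m : Multiset κ) (a : A) (S : Finset κ) :
    mono m a S = if S.val = m then a else 0 := rfl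

instance : Mul (Eps κ A) := ⟨fun F G S => ∑ T ∈ S.powerset, F T * G (S \ T)⟩

instance : One (Eps κ A) := ⟨mono 0 1⟩

theorem mul_apply (F G : Eps κ A) (S : Finset κ) :
    (F * G) S = ∑ T ∈ S.powerset, F T * G (S \ T) := rfl

theorem one_def : (1 : Eps κ A) = mono 0 1 := rfl

theorem one_apply (S : Finset κ) : (1 : Eps κ A) S = if S = ∅ then 1 else 0 := by
  rw [one_def, mono_apply]; simp

instance : Ring (Eps κ A) where
  __ := (inferInstance : AddCommGroup (Eps κ A))
  zero_mul F := by ext S; simp [mul_apply]
  mul_zero F := by ext S; simp [mul_apply]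
  left_distrib F G H := by ext S; simp [mul_apply, mul_add, Finset.sum_add_distrib]
  right_distrib F G H := by ext S; simp [mul_apply, add_mul, Finset.sum_add_distrib]
  one_mul F := by
    ext S
    rw [mul_apply, Finset.sum_eq_single ∅] <;> simp +contextual [one_apply]
  mul_one F := by
    ext S
    rw [mul_apply, Finset.sum_eq_single S]
    · simp [one_apply]
    · intro T hT hne
      rw [one_apply, if_neg, mul_zero]
      intro h
      exact hne (Finset.Subset.antisymm (Finset.mem_powerset.1 hT) (Finset.sdiff_eq_empty_iff_subset.1 h))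
    · simp
  mul_assoc F G H := by
    ext S
    simp only [mul_apply, Finset.sum_mul, Finset.mul_sum]
    rw [Finset.sum_sigma', Finset.sum_sigma']
    refine Finset.sum_bij' (fun x _ => ⟨x.2, x.1 \ x.2⟩) (fun y _ => ⟨y.1 ∪ y.2, y.1⟩) ?_ ?_ ?_ ?_ ?_
    · rintro ⟨T, U⟩ h
      simp only [Finset.mem_sigma, Finset.mem_powerset] at h ⊢
      exact ⟨h.2.trans h.1, Finset.sdiff_subset_sdiff h.1 le_rfl⟩
    · rintro ⟨U, V⟩ h
      simp only [Finset.mem_sigma, Finset.mem_powerset] at h ⊢
      exact ⟨Finset.union_subset h.1 (h.2.trans Finset.sdiff_subset), Finset.subset_union_left⟩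
    · rintro ⟨T, U⟩ h
      simp only [Finset.mem_sigma, Finset.mem_powerset] at h
      simp [Finset.union_sdiff_of_subset h.2]
    · rintro ⟨U, V⟩ h
      simp only [Finset.mem_sigma, Finset.mem_powerset] at h
      have : Disjoint U V := Finset.disjoint_of_subset_right h.2 Finset.disjoint_sdiff
      simp [Finset.union_sdiff_cancel_left this]
    · rintro ⟨T, U⟩ h
      simp only [Finset.mem_sigma, Finset.mem_powerset] at h
      have : (S \ U) \ (T \ U) = S \ T := by
        ext k; simp only [Finset.mem_sdiff]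
        have := @h.2 k
        tauto
      simp only [this, mul_assoc]

@[simp] theorem mono_zero (m : Multiset κ) : mono m (0 : A) = 0 := by
  ext S; simp [mono_apply]

theorem mono_add (m : Multiset κ) (a b : A) : mono m (a + b) = mono m a + mono m b := by
  ext S; simp only [mono_apply, add_apply]; split_ifs <;> simp

theorem mono_nsmul (m : Multiset κ) (n : ℕ) (a : A) : mono m (n • a) = n • mono m a := by
  ext S; simp only [mono_apply, nsmul_apply]; split_ifs <;> simp

theorem mono_of_not_nodup {m : Multiset κ} (h : ¬ m.Nodup) (a : A) : mono m a = 0 := by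
  ext S
  rw [mono_apply, if_neg, zero_apply]
  rintro rfl
  exact h S.nodup

theorem mono_mul (m m' : Multiset κ) (a a' : A) :
    mono m a * mono m' a' = mono (m + m') (a * a') := by
  ext S
  rw [mul_apply, mono_apply]
  split_ifs with h
  · have hn : (m + m').Nodup := h ▸ S.nodup
    have hm : m.Nodup := (Multiset.nodup_add.1 hn).1
    rw [Finset.sum_eq_single ⟨m, hm⟩]
    · rw [mono_apply, mono_apply, if_pos rfl, if_pos]
      rw [Finset.sdiff_val, h]; simp
    · intro T _ hne
      rw [mono_apply, if_neg, zero_mul]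
      intro h'; exact hne (Finset.val_inj.1 h')
    · intro hT
      exfalso; apply hT
      rw [Finset.mem_powerset, ← Finset.val_le_iff, h]
      exact Multiset.le_add_right _ _
  · apply Finset.sum_eq_zero
    intro T hT
    rw [mono_apply, mono_apply]
    split_ifs with h1 h2
    · exfalso; apply h
      rw [← h1, ← h2, Finset.sdiff_val, add_tsub_cancel_of_le]
      exact Finset.val_le_iff.2 (Finset.mem_powerset.1 hT)
    · simp
    · simp
    · simp

theorem five_eq_zero (h5 : (5 : A) = 0) : (5 : Eps κ A) = 0 := by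
  have : (5 : Eps κ A) = (5 : ℕ) • (1 : Eps κ A) := by simp
  rw [this, one_def, ← mono_nsmul]; simp [h5]

theorem mul_comm' {R : Type*} [CommRing R] (F G : Eps κ R) : F * G = G * F := by
  ext S
  rw [mul_apply, mul_apply]
  refine Finset.sum_bij' (fun T _ => S \ T) (fun T _ => S \ T) ?_ ?_ ?_ ?_ ?_
  · intro T _; simp
  · intro T _; simp
  · intro T hT; exact Finset.sdiff_sdiff_eq_self (Finset.mem_powerset.1 hT)
  · intro T hT; exact Finset.sdiff_sdiff_eq_self (Finset.mem_powerset.1 hT)
  · intro T hT; rw [Finset.sdiff_sdiff_eq_self (Finset.mem_powerset.1 hT), mul_comm]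

/-- The elements supported on sets of `ω`-weight at least `n`. -/
def D (ω : κ → ℕ) (n : ℕ) : AddSubgroup (Eps κ A) where
  carrier := {F | ∀ S : Finset κ, ∑ k ∈ S, ω k < n → F S = 0}
  zero_mem' := fun _ _ => rfl
  add_mem' := fun ha hb S hS => by rw [add_apply, ha S hS, hb S hS, add_zero]
  neg_mem' := fun ha S hS => by rw [neg_apply, ha S hS, neg_zero]

theorem mem_D {ω : κ → ℕ} {n : ℕ} {F : Eps κ A} :
    F ∈ D ω n ↔ ∀ S : Finset κ, ∑ k ∈ S, ω k < n → F S = 0 := Iff.rfl

theorem mem_D_zero (ω : κ → ℕ) (F : Eps κ A) : F ∈ D ω 0 := fun _ h => absurd h (Nat.not_lt_zero _)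

theorem D_anti (ω : κ → ℕ) {m n : ℕ} (h : m ≤ n) : (D ω n : AddSubgroup (Eps κ A)) ≤ D ω m :=
  fun _ hF S hS => hF S (lt_of_lt_of_le hS h)

theorem mul_mem_D {ω : κ → ℕ} {a b : ℕ} {F G : Eps κ A} (hF : F ∈ D ω a) (hG : G ∈ D ω b) :
    F * G ∈ D ω (a + b) := by
  intro S hS
  rw [mul_apply]
  apply Finset.sum_eq_zero
  intro T hT
  have := Finset.sum_sdiff (f := ω) (Finset.mem_powerset.1 hT)
  by_cases h : ∑ k ∈ T, ω k < a
  · rw [hF T h, zero_mul]
  · rw [hG (S \ T) (by omega), mul_zero]

theorem mono_mem_D (ω : κ → ℕ) (m : Multiset κ) (a : A) : mono m a ∈ D ω (m.map ω).sum := by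
  intro S hS
  rw [mono_apply, if_neg]
  rintro rfl
  exact lt_irrefl _ hS

theorem mono_singleton_mem_D (ω : κ → ℕ) (k : κ) (a : A) : mono {k} a ∈ D ω (ω k) := by
  simpa using mono_mem_D ω {k} a

/-- For the indicator weight of a finite set `T`, the filtration stops after `T.card`. -/
theorem eq_zero_of_mem_D (T : Finset κ) {n : ℕ} (hn : T.card < n) {F : Eps κ A}
    (hF : F ∈ D (fun k => if k ∈ T then 1 else 0) n) : F = 0 := by
  ext S
  apply hF
  refine lt_of_le_of_lt ?_ hn
  rw [← Finset.card_filter]
  exact Finset.card_le_card fun k hk => (Finset.mem_filter.1 hk).2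

/-- The homogeneous part of degree `n`. -/
def part (n : ℕ) : Eps κ A →+ Eps κ A where
  toFun F := fun S => if S.card = n then F S else 0
  map_zero' := by ext S; simp
  map_add' F G := by
    ext S; simp only [add_apply]; split_ifs <;> simp

theorem part_apply (n : ℕ) (F : Eps κ A) (S : Finset κ) :
    part n F S = if S.card = n then F S else 0 := rfl

theorem part_eq_zero {n : ℕ} {F : Eps κ A} (hF : F ∈ D (fun _ => 1) (n + 1)) : part n F = 0 := by
  ext S
  rw [part_apply, zero_apply]
  split_ifs with h
  · exact hF S (by simp [h])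
  · rfl

theorem part_mul {a b : ℕ} {F G : Eps κ A} (hF : F ∈ D (fun _ => 1) a)
    (hG : G ∈ D (fun _ => 1) b) : part (a + b) (F * G) = part a F * part b G := by
  ext S
  rw [part_apply, mul_apply, mul_apply]
  have hc : ∀ T ∈ S.powerset, T.card + (S \ T).card = S.card := fun T hT => by
    rw [add_comm]; exact Finset.card_sdiff_add_card_eq_card (Finset.mem_powerset.1 hT)
  split_ifs with h
  · apply Finset.sum_congr rfl
    intro T hT
    have := hc T hT
    rw [part_apply, part_apply]
    by_cases h1 : T.card = a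
    · rw [if_pos h1, if_pos (by omega)]
    · rw [if_neg h1, zero_mul]
      by_cases h2 : T.card < a
      · rw [hF T (by simpa using h2), zero_mul]
      · rw [hG (S \ T) (by simp; omega), mul_zero]
  · symm
    apply Finset.sum_eq_zero
    intro T hT
    have := hc T hT
    rw [part_apply, part_apply]
    split_ifs with h1 h2
    · omega
    · simp
    · simp
    · simp

theorem part_mono (m : Multiset κ) (a : A) : part m.card (mono m a) = mono m a := by
  ext S
  rw [part_apply]
  split_ifs with h
  · rfl
  · rw [mono_apply, if_neg]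
    rintro rfl
    exact h rfl

end Eps

end Kos
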