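import Pool.Agent.P.MP_80c021_al.Defs
import Pool.Agent.P.MP_80c021_al.Conv

/-!
# The identities `EE (ad u₁, …, ad u_m) y = 0` hold in `L(G)` for `G` of exponent five

Group-valued functions on lists and their difference operators.
-/

namespace Kos

open scoped commutatorElement

variable {G : Type*} [Group G]

/-- The filtration `G = G₀ = G₁ ≥ γ₂ ≥ ⋯`. -/
def fil (G : Type*) [Group G] (k : ℕ) : Subgroup G := gam G (k - 1)

theorem fil_anti {m n : ℕ} (h : m ≤ n) : fil G n ≤ fil G m := gam_anti (by omega)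

theorem fil_comm {i j : ℕ} {x y : G} (hx : x ∈ fil G i) (hy : y ∈ fil G j) :
    ⁅x, y⁆ ∈ fil G (i + j) := by
  rcases Nat.eq_zero_or_pos i with rfl | hi
  · rw [zero_add, commutatorElement_def]
    exact mul_mem ((gam_normal G _).conj_mem _ hy x) (inv_mem hy)
  rcases Nat.eq_zero_or_pos j with rfl | hj
  · have : ⁅x, y⁆ = x * (y * x⁻¹ * y⁻¹) := by simp [commutatorElement_def, mul_assoc]
    rw [add_zero, this]
    exact mul_mem hx ((gam_normal G _).conj_mem _ (inv_mem hx) y)
  exact comm_mem_gam hx hy (by omega)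

/-- Homogeneous letters: an element of `γ_{n+1}(G)` together with `n`. -/
abbrev Hom (G : Type*) [Group G] := {a : ℕ × G // a.2 ∈ gam G a.1}

namespace Hom

/-- The weight of a letter. -/
def w (a : Hom G) : ℕ := a.1.1 + 1

/-- The class of a letter in `L(G)`. -/
noncomputable def cl (a : Hom G) : AssocLie G := cls a.1.1 a.1.2

end Hom

/-- The difference operator. -/
def dif (a : Hom G) (F : List (Hom G) → G) : List (Hom G) → G := fun s => F (a :: s) * (F s)⁻¹

/-- Order at least `κ`, up to depth `n`. -/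
def Ord : ℕ → ℕ → (List (Hom G) → G) → Prop
  | 0, κ, F => F [] ∈ fil G κ
  | n + 1, κ, F => F [] ∈ fil G κ ∧ ∀ a, Ord n (κ + a.w) (dif a F)

theorem Ord.nil {n κ : ℕ} {F : List (Hom G) → G} (h : Ord n κ F) : F [] ∈ fil G κ := by
  cases n with
  | zero => exact h
  | succ n => exact h.1

theorem Ord.pred {n : ℕ} : ∀ {κ : ℕ} {F : List (Hom G) → G}, Ord (n + 1) κ F → Ord n κ F := by
  induction n with
  | zero => exact fun h => h.1
  | succ n ih => exact fun h => ⟨h.1, fun a => ih (h.2 a)⟩

theorem Ord.anti {n : ℕ} : ∀ {κ κ' : ℕ} {F : List (Hom G) → G}, Ord n κ F → κ' ≤ κ → Ord n κ' F := by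
  induction n with
  | zero => exact fun h hk => fil_anti hk h
  | succ n ih => exact fun h hk => ⟨fil_anti hk h.1, fun a => ih (h.2 a) (by omega)⟩

theorem dif_one (a : Hom G) : dif a 1 = 1 := by funext s; simp [dif]

theorem Ord.one (n : ℕ) : ∀ κ : ℕ, Ord n κ (1 : List (Hom G) → G) := by
  induction n with
  | zero => exact fun κ => one_mem _
  | succ n ih => exact fun κ => ⟨one_mem _, fun a => by rw [dif_one]; exact ih _⟩

theorem dif_mul (a : Hom G) (F H : List (Hom G) → G) :
    dif a (F * H) = dif a F * ⁅F, dif a H⁆ * dif a H := by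
  funext s; simp [dif, commutatorElement_def, mul_assoc]

theorem dif_inv (a : Hom G) (F : List (Hom G) → G) :
    dif a F⁻¹ = ⁅F⁻¹, (dif a F)⁻¹⁆ * (dif a F)⁻¹ := by
  funext s; simp [dif, commutatorElement_def, mul_assoc]

theorem dif_comm (a : Hom G) (F H : List (Hom G) → G) :
    dif a ⁅F, H⁆ = ⁅dif a F, ⁅F, dif a H⁆⁆ * ⁅F, dif a H⁆ * ⁅dif a F * dif a H, ⁅F, H⁆⁆ *
      (⁅⁅F, H⁆, ⁅dif a F, dif a H * H⁆⁆ * ⁅dif a F, dif a H * H⁆) := by
  funext s; simp [dif, commutatorElement_def, mul_assoc]

theorem Ord.closed (n : ℕ) :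
    (∀ (κ : ℕ) (F H : List (Hom G) → G), Ord n κ F → Ord n κ H → Ord n κ (F * H)) ∧
    (∀ (κ : ℕ) (F : List (Hom G) → G), Ord n κ F → Ord n κ F⁻¹) ∧
    (∀ (κ κ' : ℕ) (F H : List (Hom G) → G), Ord n κ F → Ord n κ' H → Ord n (κ + κ') ⁅F, H⁆) := by
  induction n with
  | zero =>
    exact ⟨fun κ F H hF hH => mul_mem hF hH, fun κ F hF => inv_mem hF,
      fun κ κ' F H hF hH => fil_comm hF hH⟩
  | succ n ih =>
    obtain ⟨hm, hi, hc⟩ := ih
    refine ⟨fun κ F H hF hH => ⟨mul_mem hF.1 hH.1, fun a => ?_⟩,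
      fun κ F hF => ⟨inv_mem hF.1, fun a => ?_⟩,
      fun κ κ' F H hF hH => ⟨fil_comm hF.1 hH.1, fun a => ?_⟩⟩
    · rw [dif_mul]
      exact hm _ _ _ (hm _ _ _ (hF.2 a) ((hc _ _ _ _ hF.pred (hH.2 a)).anti (by omega))) (hH.2 a)
    · rw [dif_inv]
      exact hm _ _ _ ((hc _ _ _ _ (hi _ _ hF.pred) (hi _ _ (hF.2 a))).anti (by omega))
        (hi _ _ (hF.2 a))
    · rw [dif_comm]
      have h1 := hc _ _ _ _ hF.pred (hH.2 a)
      have h2 := hc _ _ _ _ hF.pred hH.pred
      have h3 := hc _ _ _ _ (hF.2 a) (hm κ' _ _ ((hH.2 a).anti (by omega)) hH.pred)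
      have h4 := hm a.w _ _ ((hF.2 a).anti (by omega)) ((hH.2 a).anti (by omega))
      exact hm _ _ _ (hm _ _ _ (hm _ _ _ ((hc _ _ _ _ (hF.2 a) h1).anti (by omega))
        (h1.anti (by omega))) ((hc _ _ _ _ h4 h2).anti (by omega)))
        (hm _ _ _ ((hc _ _ _ _ h2 h3).anti (by omega)) (h3.anti (by omega)))

/-- Order at least `κ`. -/
def O (κ : ℕ) (F : List (Hom G) → G) : Prop := ∀ n, Ord n κ F

namespace O

variable {κ κ' : ℕ} {F H : List (Hom G) → G}

theorem nil (h : O κ F) : F [] ∈ fil G κ := h 0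
theorem dif (h : O κ F) (a : Hom G) : O (κ + a.w) (dif a F) := fun n => (h (n + 1)).2 a
theorem anti (h : O κ F) (hk : κ' ≤ κ) : O κ' F := fun n => (h n).anti hk
theorem mul (hF : O κ F) (hH : O κ H) : O κ (F * H) := fun n => (Ord.closed n).1 _ _ _ (hF n) (hH n)
theorem inv (hF : O κ F) : O κ F⁻¹ := fun n => (Ord.closed n).2.1 _ _ (hF n)
theorem comm (hF : O κ F) (hH : O κ' H) : O (κ + κ') ⁅F, H⁆ :=
  fun n => (Ord.closed n).2.2 _ _ _ _ (hF n) (hH n)
theorem one : O κ (1 : List (Hom G) → G) := fun n => Ord.one n κ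

theorem conj (hF : O 0 F) (hH : O κ H) : O κ (F * H * F⁻¹) := by
  have : F * H * F⁻¹ = ⁅F, H⁆ * H := by simp [commutatorElement_def]
  rw [this]
  exact ((hF.comm hH).anti (by omega)).mul hH

end O

theorem dif_const (a : Hom G) (u : G) : dif a (fun _ => u) = 1 := by funext s; simp [dif]

theorem O.const {κ : ℕ} {u : G} (hu : u ∈ fil G κ) : O κ (fun _ : List (Hom G) => u) := by
  intro n
  cases n with
  | zero => exact hu
  | succ n => exact ⟨hu, fun a => by rw [dif_const]; exact Ord.one _ _⟩

theorem O.letter (a : Hom G) : O a.w (fun _ : List (Hom G) => a.1.2) := O.const a.2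

/-- The product of the letters. -/
def gp : List (Hom G) → G := fun s => (s.map fun a => a.1.2).prod

theorem dif_gp (a : Hom G) : dif a gp = fun _ => a.1.2 := by funext s; simp [dif, gp]

theorem O_gp : O 0 (gp : List (Hom G) → G) := by
  intro n
  cases n with
  | zero => exact mem_gam_zero _
  | succ n => exact ⟨mem_gam_zero _, fun a => by rw [dif_gp, zero_add]; exact O.letter a n⟩

/-- The leading term of the iterated difference. -/
noncomputable def lam : List (Hom G) → ℕ → (List (Hom G) → G) → AssocLie G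
  | [], k, F => cls k (F [])
  | a :: l, k, F => lam l (k + a.w) (dif a F)

theorem lam_zero (l : List (Hom G)) : ∀ {k : ℕ} {F : List (Hom G) → G}, O (k + 2) F →
    lam l k F = 0 := by
  induction l with
  | nil => exact fun h => cls_eq_zero h.nil
  | cons a l ih => exact fun h => ih ((h.dif a).anti (by omega))

theorem lam_mul (l : List (Hom G)) : ∀ {k : ℕ} {F H : List (Hom G) → G}, O (k + 1) F →
    O (k + 1) H → lam l k (F * H) = lam l k F + lam l k H := by
  induction l with
  | nil => exact fun hF hH => cls_mul hF.nil hH.nil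
  | cons a l ih =>
    intro k F H hF hH
    have h1 : O (k + a.w + 1) (dif a F) := (hF.dif a).anti (by omega)
    have h2 : O (k + a.w + 1) (dif a H) := (hH.dif a).anti (by omega)
    have h3 : O (k + a.w + 2) ⁅F, dif a H⁆ := (hF.comm h2).anti (by omega)
    simp only [lam]
    rw [dif_mul, ih (h1.mul (h3.anti (by omega))) h2, ih h1 (h3.anti (by omega)), lam_zero l h3,
      add_zero]

theorem lam_comm_letter (a : Hom G) (l : List (Hom G)) : ∀ {k : ℕ} {H : List (Hom G) → G},
    O (k + 1) H → lam l (k + a.w) ⁅(fun _ => a.1.2 : List (Hom G) → G), H⁆ = ⁅a.cl, lam l k H⁆ := by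
  induction l with
  | nil =>
    intro k H hH
    simp only [lam, Hom.cl]
    rw [lie_cls (j := k) a.2 hH.nil, show k + a.w = a.1.1 + k + 1 by unfold Hom.w; omega]
    rfl
  | cons b l ih =>
    intro k H hH
    have h2 : O (k + b.w + 1) (dif b H) := (hH.dif b).anti (by omega)
    have e : dif b ⁅(fun _ => a.1.2 : List (Hom G) → G), H⁆ =
        ⁅(fun _ => a.1.2 : List (Hom G) → G), dif b H⁆ *
          ⁅dif b H, ⁅(fun _ => a.1.2 : List (Hom G) → G), H⁆⁆ := by
      funext s; simp [dif, commutatorElement_def, mul_assoc]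
    have h3 : O (k + a.w + b.w + 2) ⁅dif b H, ⁅(fun _ => a.1.2 : List (Hom G) → G), H⁆⁆ :=
      (h2.comm ((O.letter a).comm hH)).anti (by omega)
    simp only [lam]
    rw [e, lam_mul l (((O.letter a).comm h2).anti (by omega)) (h3.anti (by omega)), lam_zero l h3,
      add_zero, show k + a.w + b.w = k + b.w + a.w by omega, ih h2]

/-- `ad` of the class of a letter. -/
noncomputable def adl (a : Hom G) : Module.End ℤ (AssocLie G) := LieAlgebra.ad ℤ _ a.cl

theorem lam_conj (y : AssocLie G) (l : List (Hom G)) : ∀ {k : ℕ} {F : List (Hom G) → G}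
    {T : List (Hom G) → Module.End ℤ (AssocLie G)}, O (k + 1) F → (∀ l, lam l k F = T l y) →
    lam l k (gp * F * gp⁻¹) = conv l (fun t => (t.map adl).prod) T y := by
  induction l with
  | nil =>
    intro k F T hF hT
    have := hT []
    simp only [lam] at this
    simp [lam, gp, this]
  | cons a l ih =>
    intro k F T hF hT
    have ha : 1 ≤ a.w := by unfold Hom.w; omega
    have h1 : O (k + a.w + 1) (dif a F) := (hF.dif a).anti (by omega)
    have hh := O_gp.conj h1
    have hH := O_gp.conj hF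
    have e : dif a (gp * F * gp⁻¹) =
        ⁅(fun _ => a.1.2 : List (Hom G) → G), gp * dif a F * gp⁻¹⁆ * (gp * dif a F * gp⁻¹) *
          ⁅(fun _ => a.1.2 : List (Hom G) → G), gp * F * gp⁻¹⁆ := by
      funext s; simp [dif, gp, commutatorElement_def, mul_assoc]
    have h3 : O (k + a.w + 2) ⁅(fun _ => a.1.2 : List (Hom G) → G), gp * dif a F * gp⁻¹⁆ :=
      ((O.letter a).comm hh).anti (by omega)
    simp only [lam]
    rw [e, lam_mul l ((h3.anti (by omega)).mul hh) (((O.letter a).comm hH).anti (by omega)),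
      lam_mul l (h3.anti (by omega)) hh, lam_zero l h3, zero_add, lam_comm_letter a l hH,
      ih hF hT, ih (T := fun t => T (a :: t)) h1 (fun l => hT (a :: l)), conv_cons]
    simp only [List.map_cons, List.prod_cons]
    rw [conv_mul_left, add_comm]
    simp [adl]

theorem engel_hom (hexp : ∀ g : G, g ^ 5 = 1) (l : List (Hom G)) (b : Hom G) :
    EE adl l b.cl = 0 := by
  let F : ℕ → List (Hom G) → G := fun j => gp ^ j * (fun _ => b.1.2) * (gp ^ j)⁻¹
  have hs : ∀ j, F (j + 1) = gp * F j * gp⁻¹ := fun j => by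
    simp only [F, pow_succ', mul_inv_rev, mul_assoc]
  have h0 : F 0 = fun _ => b.1.2 := by simp [F]
  have hO : ∀ j, O (b.1.1 + 1) (F j) := by
    intro j
    induction j with
    | zero => rw [h0]; exact O.letter b
    | succ j ih => rw [hs]; exact O_gp.conj ih
  have hl : ∀ j l, lam l b.1.1 (F j) = Mpow adl j l b.cl := by
    intro j
    induction j with
    | zero =>
      intro l
      rw [h0]
      cases l with
      | nil => simp [lam, Mpow, delta, Hom.cl]
      | cons a l => simp only [lam, dif_const, Mpow, delta]; rw [lam_zero l O.one]; simp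
    | succ j ih => intro l; rw [hs, lam_conj b.cl l (hO j) ih, Mpow_succ]
  have hp : F 0 * F 1 * F 2 * F 3 * F 4 = 1 := by
    funext s
    have h1 := hexp (b.1.2 * gp s)
    have h2 := hexp (gp s)
    have : (F 0 * F 1 * F 2 * F 3 * F 4) s = (b.1.2 * gp s) ^ 5 * ((gp s) ^ 5)⁻¹ := by
      simp only [F, Pi.mul_apply, Pi.inv_apply, pow_succ, pow_zero, one_mul,
        mul_inv_rev, inv_one, mul_one, mul_assoc, inv_mul_cancel_left, mul_inv_cancel_left]
    rw [this, h1, h2]; simp
  have := lam_zero l (k := b.1.1) (O.one (G := G))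
  rw [← hp, lam_mul l ((((hO 0).mul (hO 1)).mul (hO 2)).mul (hO 3)) (hO 4),
    lam_mul l (((hO 0).mul (hO 1)).mul (hO 2)) (hO 3), lam_mul l ((hO 0).mul (hO 1)) (hO 2),
    lam_mul l (hO 0) (hO 1)] at this
  simp only [hl] at this
  simpa [EE, Finset.sum_range_succ] using this

/-- The multilinear identities `EE` hold in the associated Lie ring of a group of exponent five. -/
theorem engel_identity (hexp : ∀ g : G, g ^ 5 = 1) (l : List (AssocLie G)) (y : AssocLie G) :
    EE (fun u => LieAlgebra.ad ℤ (AssocLie G) u) l y = 0 := by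
  have key : ∀ (q : List (AssocLie G)) (p : List (Hom G)),
      EE (fun u => LieAlgebra.ad ℤ (AssocLie G) u) (p.map Hom.cl ++ q) = 0 := by
    intro q
    induction q with
    | nil =>
      intro p
      rw [List.append_nil, EE_map]
      ext y
      induction y using AssocLie.induction_on with
      | h0 => simp
      | hcls n g hg => exact engel_hom hexp p ⟨(n, g), hg⟩
      | hadd a b ha hb => rw [map_add, ha, hb]; simp
    | cons u q ih =>
      intro p
      induction u using AssocLie.induction_on with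
      | h0 => exact EE_zero_entry _ _ (by simp) _ _
      | hcls n g hg =>
        have := ih (p ++ [⟨(n, g), hg⟩])
        rwa [List.map_append, List.append_assoc] at this
      | hadd a b ha hb =>
        rw [EE_three (fun u => LieAlgebra.ad ℤ (AssocLie G) u) (a + b) a b (map_add _ a b), ha, hb,
          add_zero]
  have := key l []
  rw [List.map_nil, List.nil_append] at this
  rw [this, LinearMap.zero_apply]

theorem five_smul_assocLie (hexp : ∀ g : G, g ^ 5 = 1) (y : AssocLie G) : 5 • y = 0 := by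
  have := engel_identity hexp [] y
  rw [EE_nil] at this
  simpa using this

end Kos
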