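import Pool.Agent.P.MP_80c021_al.Chk

/-!
# Soundness of the checker, first phase
-/

namespace Kos.Chk

variable {R : Type*} [Ring R] (X : ℕ → R)

/-- The basis of the weight `i` minus the letter `a`. -/
noncomputable def pred (Nb : ℕ → List R) (i a : ℕ) : List R :=
  bif valid i a then Nb (i - st a) else []

/-- The left cover. -/
noncomputable def EL (Nb : ℕ → List R) (i a : ℕ) : List R := (pred Nb i a).map fun e => X a * e

/-- The right cover. -/
noncomputable def ER (Nb : ℕ → List R) (i a : ℕ) : List R := (pred Nb i a).map fun e => e * X a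

/-- The tables of the cell are correct. -/
def OK (Nb : ℕ → List R) (i : ℕ) (c : Cell) : Prop :=
  (Nb i).length = c.dim ∧ c.dim ≤ 500 ∧
    ∀ a < 3, Tab (Nb i) (EL X Nb i a) (c.L.get a) ∧ Tab (Nb i) (ER X Nb i a) (c.R.get a)

/-- The coordinates of `x_a u` and `u x_b`. -/
def Pair (Nb : ℕ → List R) (i a b : ℕ) (p : ℕ × ℕ) : Prop :=
  Small 4 p.1 ∧ Small 4 p.2 ∧
    ∃ u, val (pred Nb i b) p.1 = X a * u ∧ val (pred Nb i a) p.2 = u * X b

variable {X}

theorem pred_update (Nb : ℕ → List R) {i j a : ℕ} (hj : j ≤ i) (ha : a < 3) (N : List R) :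
    pred (Function.update Nb i N) j a = pred Nb j a := by
  unfold pred
  cases h : valid j a
  · rfl
  · have := sub_st_lt ha h
    simp only [cond_true]
    rw [Function.update_of_ne (by omega)]

theorem OK.update {Nb : ℕ → List R} {i j : ℕ} {c : Cell} (h : OK X Nb j c) (hj : j < i)
    (N : List R) : OK X (Function.update Nb i N) j c := by
  unfold OK EL ER at *
  rw [Function.update_of_ne hj.ne]
  exact ⟨h.1, h.2.1, fun a ha => by rw [pred_update Nb hj.le ha]; exact h.2.2 a ha⟩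

theorem revzip_spec {P Q : R → ℕ → Prop} {f g : R → R} {S : ℕ × ℕ → Prop}
    (hS : ∀ u a c, P (f u) a → Q (g u) c → S (a, c)) (U : List R) :
    ∀ (A C : List ℕ) (acc : List (ℕ × ℕ)), List.Forall₂ P (U.map f) A → List.Forall₂ Q (U.map g) C →
      (∀ p ∈ acc, S p) → ∀ p ∈ revzip A C acc, S p := by
  induction U with
  | nil =>
    intro A C acc hA _ hacc
    cases hA
    exact hacc
  | cons u U ih =>
    intro A C acc hA hC hacc
    cases hA with
    | @cons _ a _ A h1 h2 =>
      cases hC with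
      | @cons _ c _ C h3 h4 =>
        refine ih A C ((a, c) :: acc) h2 h4 fun p hp => ?_
        rcases List.mem_cons.1 hp with rfl | hp
        exacts [hS _ _ _ h1 h3, hacc p hp]

theorem Zab_pair {T : ℕ → Cell} {Nb : ℕ → List R} {i : ℕ} (h : ∀ k < i, OK X Nb k (T k))
    {a b : ℕ} (ha : a < 3) (hb : b < 3) : ∀ p ∈ Zab T i a b, Pair X Nb i a b p := by
  unfold Zab
  cases hv : (valid i a && valid i b && valid (Nat.sub i (st b)) a && valid (Nat.sub i (st a)) b)
  · simp
  simp only [Bool.and_eq_true, Nat.sub_eq] at hv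
  obtain ⟨⟨⟨h1, h2⟩, h3⟩, h4⟩ := hv
  have e1 := ((h _ (sub_st_lt hb h2)).2.2 a ha).1
  have e2 := ((h _ (sub_st_lt ha h1)).2.2 b hb).2
  simp only [EL, ER, pred, h3, h4, cond_true] at e1 e2
  rw [Nat.sub_right_comm] at e2
  refine revzip_spec (fun u a c hP hQ => ?_) _ _ _ [] e1 e2 (by simp)
  simp only [Pair, pred, h1, h2, cond_true]
  exact ⟨hP.1, hQ.1, u, hP.2, hQ.2⟩

theorem pdim_eq {T : ℕ → Cell} {Nb : ℕ → List R} {i : ℕ} (h : ∀ k < i, OK X Nb k (T k))
    {a : ℕ} (ha : a < 3) : pdim T i a = (pred Nb i a).length ∧ (pred Nb i a).length ≤ 500 := by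
  unfold pdim pred
  cases hv : valid i a
  · simp
  · have := h _ (sub_st_lt ha hv)
    exact ⟨this.1.symm, this.1 ▸ this.2.1⟩

theorem isUnit_spec {v k : ℕ} (h : isUnit v k = true) : 1 ≤ k ∧ v = 65536 ^ (k - 1) := by
  simp only [isUnit, Bool.and_eq_true, Nat.ble_eq, Nat.beq_eq, shl_eq, Nat.sub_eq] at h
  exact ⟨h.1, by simpa using h.2⟩

theorem isDiv_spec {v k : ℕ} (h : isDiv v k = true) : v = shr v k * 65536 ^ k := by
  simp only [isDiv, Nat.beq_eq, shl_eq] at h
  exact h.symm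

/-- A partially known table. -/
def PT (N E : List R) (rows : List ℕ) (k : ℕ) : Prop := k ≤ E.length ∧ Tab N (E.drop k) rows

theorem PT.init (N E : List R) : PT N E [] E.length := ⟨le_rfl, by simp [Tab]⟩

theorem PT.push {N E : List R} {rows : List ℕ} {k r : ℕ} (h : PT N E rows k) (hk : 1 ≤ k)
    (hr : Small 4 r) (hv : val N r = E.getD (k - 1) 0) : PT N E (r :: rows) (k - 1) := by
  have hl : k - 1 < E.length := by have := h.1; omega
  refine ⟨hl.le, ?_⟩
  rw [List.drop_eq_getElem_cons hl, show k - 1 + 1 = k by omega]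
  exact List.Forall₂.cons ⟨hr, by rw [hv, List.getD_eq_getElem _ _ hl]⟩ h.2

theorem PT.pvm (h5 : (5 : R) = 0) {N E : List R} {rows : List ℕ} {k v : ℕ} (h : PT N E rows k)
    (hN : N.length ≤ 1024) (hE : E.length ≤ 500) (hv : Small 4 v) (hd : isDiv v k = true) :
    Small 4 (nvm rows (shr v k) 0) ∧ val N (nvm rows (shr v k) 0) = val E v := by
  have := nvm_spec h5 h.2 hN (by simp; omega) (v := shr v k) (by rw [shr_eq]; exact hv.div_pow k)
    (small_zero 100)
  refine ⟨this.1, ?_⟩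
  rw [this.2, val_zero, zero_add, ← val_mul_pow, ← isDiv_spec hd]

theorem getD_map_zero (f : R → R) (hf : f 0 = 0) (l : List R) (k : ℕ) :
    (l.map f).getD k 0 = f (l.getD k 0) := by
  conv_lhs => rw [← hf]
  exact List.getD_map _ _ _

variable (X)

/-- The element with a given code. -/
noncomputable def elem (Nb : ℕ → List R) (i code : ℕ) : R :=
  X (code % 4) * (pred Nb i (code % 4)).getD (code / 4) 0

/-- The new basis. -/
noncomputable def newN (Nb : ℕ → List R) (i dim NP : ℕ) : List R :=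
  (List.range dim).map fun k => elem X Nb i (dig NP k)

/-- The defects of the new leading words. -/
noncomputable def newG (Nb : ℕ → List R) (i dim NP K : ℕ) (GP : List (ℕ × ℕ)) : List R :=
  GP.map fun p => elem X Nb i p.1 - val (newN X Nb i dim NP) (unf K p.2)

/-- The invariant of the first phase. -/
def Inv (Nb : ℕ → List R) (i : ℕ) (GN : List R) (a : ℕ) (s : St) : Prop :=
  (∀ b < 3, ∀ p ∈ s.Z.get b, Pair X Nb i a b p) ∧ PT GN (EL X Nb i a) s.L s.kL ∧
    ∀ b < 3, PT GN (ER X Nb i b) (s.Rr.get b).1 (s.Rr.get b).2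

variable {X}

theorem elem_code (Nb : ℕ → List R) (i : ℕ) {a : ℕ} (ha : a < 3) (k : ℕ) :
    elem X Nb i (4 * k + a) = (EL X Nb i a).getD k 0 := by
  rw [elem, show (4 * k + a) % 4 = a by omega, show (4 * k + a) / 4 = k by omega, EL,
    getD_map_zero _ (mul_zero _)]

section phase1

variable (h5 : (5 : R) = 0) {Nb : ℕ → List R} {i dim NP K : ℕ} {GP : List (ℕ × ℕ)}
  (hlen : GP.length + dim ≤ 500) (hp : ∀ a < 3, (pred Nb i a).length ≤ 500)
include h5 hlen hp

theorem step_sound {a t b arg : ℕ} (ha : a < 3) {s : St} {k : St → Bool}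
    (hs : Inv X Nb i (newG X Nb i dim NP K GP ++ newN X Nb i dim NP) a s)
    (h : step GP.length dim NP K GP a t b arg s k = true) :
    ∃ s', Inv X Nb i (newG X Nb i dim NP K GP ++ newN X Nb i dim NP) a s' ∧ k s' = true := by
  set GN := newG X Nb i dim NP K GP ++ newN X Nb i dim NP with hGN
  have hGNl : GN.length ≤ 1024 := by simp [hGN, newG, newN]; omega
  obtain ⟨Z, L, kL, Rr⟩ := s
  obtain ⟨hZ, hL, hR⟩ := hs
  dsimp only at hZ hL hR
  simp only [step, Bool.and_eq_true, Nat.ble_eq] at h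
  obtain ⟨hb, h⟩ := h
  have hb3 : b < 3 := by omega
  have hZb := hZ b hb3
  have hRb := hR b hb3
  cases eZ : Z.get b with
  | nil => rw [eZ] at h; exact absurd h (by simp)
  | cons p Z' =>
  obtain ⟨vL, vR⟩ := p
  rcases eR : Rr.get b with ⟨Rb, kb⟩
  rw [eZ, eR] at h
  rw [eZ] at hZb
  rw [eR] at hRb
  dsimp only at h hRb
  obtain ⟨sL, sR, u, uL, uR⟩ := hZb _ List.mem_cons_self
  dsimp only at sL sR uL uR
  have hZ' : ∀ b' < 3, ∀ p ∈ (Z.set b Z').get b', Pair X Nb i a b' p := by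
    intro b' hb' p hp
    rw [T3.get_set _ hb3 hb'] at hp
    split_ifs at hp with e
    · rw [e]; exact hZb p (List.mem_cons_of_mem _ hp)
    · exact hZ b' hb' p hp
  have hR' : ∀ r k', PT GN (ER X Nb i b) r k' →
      ∀ b' < 3, PT GN (ER X Nb i b') ((Rr.set b (r, k')).get b').1 ((Rr.set b (r, k')).get b').2 := by
    intro r k' hr b' hb'
    rw [T3.get_set _ hb3 hb']
    split_ifs with e
    · rw [e]; exact hr
    · exact hR b' hb'
  have vRL : val (ER X Nb i b) vL = X a * u * X b := by rw [ER, val_map_right, uL]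
  have vLR : val (EL X Nb i a) vR = X a * u * X b := by rw [EL, val_map_left, uR, mul_assoc]
  have gL : isUnit vR kL = true → 1 ≤ kL ∧ (EL X Nb i a).getD (kL - 1) 0 = X a * u * X b :=
    fun h => ⟨(isUnit_spec h).1, by rw [← val_pow, ← (isUnit_spec h).2, vLR]⟩
  have gR : isUnit vL kb = true → 1 ≤ kb ∧ (ER X Nb i b).getD (kb - 1) 0 = X a * u * X b :=
    fun h => ⟨(isUnit_spec h).1, by rw [← val_pow, ← (isUnit_spec h).2, vRL]⟩
  have lL : (EL X Nb i a).length ≤ 500 := by simpa [EL] using hp a ha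
  have lR : (ER X Nb i b).length ≤ 500 := by simpa [ER] using hp b hb3
  cases e0 : Nat.beq t (nat_lit 0)
  swap
  · rw [e0] at h; exact ⟨_, ⟨hZ', hL, hR⟩, h⟩
  cases e1 : Nat.beq t (nat_lit 1)
  swap
  · simp only [e0, e1, cond_true, cond_false, Bool.and_eq_true, force_eq] at h
    obtain ⟨⟨h1, h2⟩, h3⟩ := h
    have := hRb.pvm h5 hGNl lR sL h2
    exact ⟨_, ⟨hZ', hL.push (gL h1).1 this.1 (by rw [this.2, vRL, (gL h1).2]), hR⟩, h3⟩
  cases e2 : Nat.beq t (nat_lit 2)
  swap
  · simp only [e0, e1, e2, cond_true, cond_false, Bool.and_eq_true, force_eq] at h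
    obtain ⟨⟨h1, h2⟩, h3⟩ := h
    have := hL.pvm h5 hGNl lL sR h2
    exact ⟨_, ⟨hZ', hL, hR' _ _ (hRb.push (gR h1).1 this.1
      (by rw [this.2, vLR, (gR h1).2]))⟩, h3⟩
  have fin : ∀ r, isUnit vR kL = true → isUnit vL kb = true → Small 4 r →
      val GN r = elem X Nb i (4 * (kL - 1) + a) →
      Inv X Nb i GN a ⟨Z.set b Z', r :: L, kL - 1, Rr.set b (r :: Rb, kb - 1)⟩ := by
    intro r h1 h2 hr hv
    rw [elem_code Nb i ha] at hv
    exact ⟨hZ', hL.push (gL h1).1 hr hv,
      hR' _ _ (hRb.push (gR h2).1 hr (by rw [hv, (gL h1).2, (gR h2).2]))⟩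
  cases e3 : Nat.beq t (nat_lit 3)
  swap
  · simp only [e0, e1, e2, e3, cond_true, cond_false, Bool.and_eq_true, force_eq, Nat.blt_eq,
      Nat.beq_eq, shl_eq, shr_eq, Nat.add_eq, Nat.mul_eq, Nat.sub_eq, Nat.land_eq] at h
    obtain ⟨⟨⟨⟨h1, h2⟩, h3⟩, h4⟩, h6⟩ := h
    refine ⟨_, fin _ h1 h2 ((small_one.mul_pow _).mono (by norm_num)) ?_, h6⟩
    have h4' : dig NP arg = 4 * (kL - 1) + a := by
      rw [← h4]; exact (Nat.and_two_pow_sub_one_eq_mod _ 16).symm
    have : GP.length = (newG X Nb i dim NP K GP).length := by simp [newG]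
    change val GN (1 * _) = _
    rw [one_mul, val_pow, hGN, this, List.getD_append_right _ _ _ _ (by omega),
      Nat.add_sub_cancel_left, List.getD_eq_getElem _ _ (by simpa [newN] using h3), ← h4']
    simp [newN]
  · simp only [e0, e1, e2, e3, cond_false, Bool.and_eq_true, force_eq, Nat.blt_eq,
      Nat.beq_eq, shl_eq, Nat.add_eq, Nat.mul_eq, Nat.sub_eq, nth_eq] at h
    obtain ⟨⟨⟨⟨h1, h2⟩, h3⟩, h4⟩, h6⟩ := h
    rw [List.getD_eq_getElem _ _ h3] at h4 h6
    have s1 : Small 1 (1 * 65536 ^ arg) := small_one.mul_pow _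
    have s2 := (small_unf K GP[arg].2).mul_pow GP.length
    have s3 := (s1.add s2 (by norm_num)).mono (m' := 8191) (by norm_num)
    refine ⟨_, fin _ h1 h2 (small_nrm s3) ?_, h6⟩
    have : GP.length = (newG X Nb i dim NP K GP).length := by simp [newG]
    change val GN (nrm (1 * 65536 ^ arg + _)) = _
    rw [val_nrm h5 hGNl s3, val_add (by norm_num) GN s1 s2, one_mul, val_pow, val_mul_pow, hGN,
      List.getD_append _ _ _ _ (by omega), List.getD_eq_getElem _ _ (by omega)]
    conv_lhs => rw [this, List.drop_left]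
    have h4' : GP[arg].1 = 4 * (kL - 1) + a := h4
    simp [newG, h4']

theorem run_sound {a : ℕ} (ha : a < 3) {k : St → Bool} (fuel : ℕ) : ∀ (code : ℕ) (s : St),
    Inv X Nb i (newG X Nb i dim NP K GP ++ newN X Nb i dim NP) a s →
    run GP.length dim NP K GP a k fuel code s = true →
    ∃ s', Inv X Nb i (newG X Nb i dim NP K GP ++ newN X Nb i dim NP) a s' ∧ k s' = true := by
  induction fuel with
  | zero => exact fun _ s hs h => ⟨s, hs, h⟩
  | succ n ih =>
    intro code s hs h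
    obtain ⟨s', hs', h'⟩ := step_sound h5 hlen hp ha hs h
    exact ih _ s' hs' h'

theorem stage_sound {T : ℕ → Cell} (hT : ∀ k < i, OK X Nb k (T k)) {a : ℕ} (ha : a < 3)
    {p : ℕ × ℕ} {Rr : T3 (List ℕ × ℕ)} {k : List ℕ → T3 (List ℕ × ℕ) → Bool}
    (hR : ∀ b < 3, PT (newG X Nb i dim NP K GP ++ newN X Nb i dim NP) (ER X Nb i b)
      (Rr.get b).1 (Rr.get b).2)
    (h : stage T i GP.length dim NP K GP a p Rr k = true) :
    ∃ L Rr', Tab (newG X Nb i dim NP K GP ++ newN X Nb i dim NP) (EL X Nb i a) L ∧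
      (∀ b < 3, PT (newG X Nb i dim NP K GP ++ newN X Nb i dim NP) (ER X Nb i b)
        (Rr'.get b).1 (Rr'.get b).2) ∧ k L Rr' = true := by
  have i1 : ∀ b < 3, ∀ p ∈ T3.get ⟨Zab T i a 0, Zab T i a 1, Zab T i a 2⟩ b, Pair X Nb i a b p := by
    intro b hb
    interval_cases b
    exacts [Zab_pair hT ha (by norm_num), Zab_pair hT ha (by norm_num), Zab_pair hT ha (by norm_num)]
  have i2 := PT.init (newG X Nb i dim NP K GP ++ newN X Nb i dim NP) (EL X Nb i a)
  rw [show (EL X Nb i a).length = pdim T i a by rw [EL, List.length_map, (pdim_eq hT ha).1]] at i2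
  obtain ⟨s, hs, h'⟩ := run_sound h5 hlen hp ha p.1 p.2
    ⟨⟨Zab T i a 0, Zab T i a 1, Zab T i a 2⟩, [], pdim T i a, Rr⟩ ⟨i1, i2, hR⟩ h
  simp only [Bool.and_eq_true, Nat.beq_eq] at h'
  have := hs.2.1.2
  rw [h'.1] at this
  exact ⟨_, _, this, hs.2.2, h'.2⟩

end phase1

theorem cmp_sound {G N E : List R} (hG : ∀ e ∈ G, e = 0) {A : List ℕ} (h : Tab (G ++ N) E A) :
    ∀ C, cmp G.length A C = true → Tab N E C := by
  induction h with
  | nil =>
    intro C hC
    cases C with
    | nil => exact List.Forall₂.nil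
    | cons c C => exact absurd hC (by simp [cmp])
  | @cons e r E A h _ ih =>
    intro C hC
    cases C with
    | nil => exact absurd hC (by simp [cmp])
    | cons c C =>
      have hC' : (Nat.beq (shr r G.length) c && cmp G.length A C) = true := hC
      simp only [Bool.and_eq_true, Nat.beq_eq, shr_eq] at hC'
      refine List.Forall₂.cons ⟨hC'.1 ▸ h.1.div_pow _, ?_⟩ (ih C hC'.2)
      rw [← h.2, val_append, val_of_zero G hG, zero_add, hC'.1]

theorem lamChk_sound (h5 : (5 : R) = 0) {G E : List R} {rho : List ℕ} (hG : G.length ≤ 1024)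
    (hE : E.length ≤ 500) (h0 : ∀ e ∈ E, e = 0) (h : Tab G E rho) (K : ℕ) (lam : List ℕ) :
    ∀ g, lamChk G.length K rho lam g = true → ∀ k, g ≤ k → G.getD k 0 = 0 := by
  induction lam with
  | nil =>
    intro g hg k hk
    have : G.length ≤ g := Nat.ble_eq ▸ hg
    exact List.getD_eq_default _ _ (by omega)
  | cons d lam ih =>
    intro g hg k hk
    have hg' : (Nat.beq (nvm rho (nrm (unf K d)) 0) (shl 1 g) &&
      lamChk G.length K rho lam (g + 1)) = true := hg
    simp only [Bool.and_eq_true, Nat.beq_eq, shl_eq, one_mul] at hg'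
    rcases hk.eq_or_lt with rfl | hk
    · have := (nvm_spec h5 h hG hE (small_nrm ((small_unf K d).mono (by norm_num)))
        (small_zero 100)).2
      rw [hg'.1, val_pow, val_zero, val_of_zero E h0, add_zero] at this
      exact this
    · exact ih _ hg'.2 k hk

end Kos.Chk
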