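import Pool.Agent.P.MP_80c021_al.Sound

/-!
# Soundness of the checker: relations and the final evaluation
-/

namespace Kos.Chk

variable {R : Type*} [Ring R] {X : ℕ → R}

/-- `v` gives the coordinates of `e` in weight `j`. -/
def Rep (Nb : ℕ → List R) (j v : ℕ) (e : R) : Prop :=
  (Nb j).length ≤ 500 ∧ Small 4 v ∧ val (Nb j) v = e

theorem Rep.cast {Nb : ℕ → List R} {j j' v : ℕ} {e : R} (h : Rep Nb j v e) (hj : j = j') :
    Rep Nb j' v e := hj ▸ h

theorem Rep.congr {Nb : ℕ → List R} {j v : ℕ} {e e' : R} (h : Rep Nb j v e) (he : e = e') :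
    Rep Nb j v e' := he ▸ h

theorem beq_false {a b : ℕ} (h : a ≠ b) : Nat.beq a b = false :=
  Bool.eq_false_iff.2 fun e => h (Nat.eq_of_beq_eq_true e)

/-- Adding the weight `(c₀, c₁, c₂)` to `j` stays below `i`. -/
def Fit (i j c0 c1 c2 : ℕ) : Prop :=
  j / 40 + c0 ≤ i / 40 ∧ j / 8 % 5 + c1 ≤ i / 8 % 5 ∧ j % 8 + c2 ≤ i % 8

theorem iw_eq {t : FreeMagma ℕ} (h : okM t = true) : iw t = 40 * cn 0 t + 8 * cn 1 t + cn 2 t := by
  induction t using FreeMagma.rec with
  | of a =>
    have : a ≤ 2 := Nat.ble_eq ▸ h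
    interval_cases a <;> rfl
  | mul s t hs ht =>
    simp only [okM, Bool.and_eq_true] at h
    simp only [iw, cn, Nat.add_eq, hs h.1, ht h.2]; ring

section act

variable (h5 : (5 : R) = 0) {Nb : ℕ → List R}
include h5

theorem Rep.nadd' {j u v c : ℕ} {e e' : R} (hu : Rep Nb j u e) (hv : Rep Nb j v e') (hc : c ≤ 100) :
    Rep Nb j (nadd u (Nat.mul c v)) (e + c • e') := by
  have s1 := (small_mul_aux hv.2.1 c (by omega)).1
  have s2 := (hu.2.1.add s1 (by omega)).mono (m' := 8191) (by omega)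
  refine ⟨hu.1, small_nrm s2, ?_⟩
  change val _ (nrm (u + c * v)) = _
  rw [val_nrm h5 (by have := hu.1; omega) s2, val_add (by omega) _ hu.2.1 s1,
    val_mul hv.2.1 _ _ (by omega), hu.2.2, hv.2.2]

theorem Rep.nadd {j u v : ℕ} {e e' : R} (hu : Rep Nb j u e) (hv : Rep Nb j v e') :
    Rep Nb j (nadd u v) (e + e') := by
  simpa using hu.nadd' h5 hv (c := 1) (by norm_num)

theorem Rep.nsub {j u v : ℕ} {e e' : R} (hu : Rep Nb j u e) (hv : Rep Nb j v e') :
    Rep Nb j (nsub u v) (e - e') := by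
  have := hu.nadd' h5 hv (c := 4) (by norm_num)
  have e4 : (4 : ℕ) • e' = -e' := by
    rw [eq_neg_iff_add_eq_zero, ← succ_nsmul, nsmul_eq_mul]; simp [h5]
  rwa [e4, ← sub_eq_add_neg] at this

variable {T : ℕ → Cell} {i : ℕ} (hT : ∀ j ≤ i, OK X Nb j (T j))
include hT

theorem mul_spec {a j v : ℕ} {e : R} (ha : a < 3) (hv : valid (j + st a) a = true)
    (hj : j + st a ≤ i) (h : Rep Nb j v e) :
    Rep Nb (j + st a) (lmul T a j v) (X a * e) ∧ Rep Nb (j + st a) (rmul T a j v) (e * X a) := by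
  have o := hT _ hj
  have t := o.2.2 a ha
  have hl : (Nb (j + st a)).length ≤ 500 := o.1 ▸ o.2.1
  simp only [EL, ER, pred, hv, cond_true, Nat.add_sub_cancel] at t
  have r1 := nvm_spec h5 t.1 (by omega) (by simpa using h.1) h.2.1 (small_zero 100)
  have r2 := nvm_spec h5 t.2 (by omega) (by simpa using h.1) h.2.1 (small_zero 100)
  rw [val_zero, zero_add] at r1 r2
  rw [val_map_left, h.2.2] at r1
  rw [val_map_right, h.2.2] at r2
  simp only [lmul, rmul, force_eq]
  exact ⟨⟨hl, r1⟩, ⟨hl, r2⟩⟩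

theorem mul_spec' {a j v : ℕ} {e : R} (ha : okM (.of a) = true)
    (hf : Fit i j (cn 0 (.of a)) (cn 1 (.of a)) (cn 2 (.of a))) (h : Rep Nb j v e) :
    Rep Nb (j + st a) (lmul T a j v) (X a * e) ∧ Rep Nb (j + st a) (rmul T a j v) (e * X a) := by
  have : a ≤ 2 := Nat.ble_eq ▸ ha
  obtain ⟨f0, f1, f2⟩ := hf
  interval_cases a
  · change j / 40 + 1 ≤ _ at f0; change _ + 0 ≤ _ at f1 f2
    exact mul_spec h5 hT (by norm_num) (by rw [valid_0, st_0]; omega) (by rw [st_0]; omega) h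
  · change j / 8 % 5 + 1 ≤ _ at f1; change _ + 0 ≤ _ at f0 f2
    exact mul_spec h5 hT (by norm_num) (by rw [valid_1, st_1]; omega) (by rw [st_1]; omega) h
  · change j % 8 + 1 ≤ _ at f2; change _ + 0 ≤ _ at f0 f1
    exact mul_spec h5 hT (by norm_num) (by rw [valid_2, st_2]; omega) (by rw [st_2]; omega) h

theorem act_spec (t : FreeMagma ℕ) : okM t = true → ∀ {j v : ℕ} {e : R},
    Fit i j (cn 0 t) (cn 1 t) (cn 2 t) → Rep Nb j v e →
    Rep Nb (j + iw t) (actL T t j v) (rmon X t * e) ∧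
      Rep Nb (j + iw t) (actR T t j v) (e * rmon X t) := by
  induction t using FreeMagma.rec with
  | of a => exact fun ha _ _ _ hf h => mul_spec' h5 hT ha hf h
  | mul s t hs ht =>
    intro ho j v e hf h
    simp only [okM, Bool.and_eq_true] at ho
    have es := iw_eq ho.1
    have et := iw_eq ho.2
    simp only [Fit, cn, Nat.add_eq] at hf
    have fs : Fit i j (cn 0 s) (cn 1 s) (cn 2 s) := by unfold Fit; omega
    have ft : Fit i j (cn 0 t) (cn 1 t) (cn 2 t) := by unfold Fit; omega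
    have fst : Fit i (j + iw s) (cn 0 t) (cn 1 t) (cn 2 t) := by unfold Fit; omega
    have fts : Fit i (j + iw t) (cn 0 s) (cn 1 s) (cn 2 s) := by unfold Fit; omega
    have a1 := (hs ho.1 fts (ht ho.2 ft h).1).1.cast (j' := j + (iw s + iw t)) (by omega)
    have a2 := (ht ho.2 fst (hs ho.1 fs h).1).1.cast (j' := j + (iw s + iw t)) (by omega)
    have a3 := (ht ho.2 fst (hs ho.1 fs h).2).2.cast (j' := j + (iw s + iw t)) (by omega)
    have a4 := (hs ho.1 fts (ht ho.2 ft h).2).2.cast (j' := j + (iw s + iw t)) (by omega)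
    exact ⟨(a1.nsub h5 a2).congr (by simp only [rmon]; noncomm_ring),
      (a3.nsub h5 a4).congr (by simp only [rmon]; noncomm_ring)⟩

theorem lieV_spec (h0 : Nb 0 = [1]) (c : ℕ) (l : List ℕ) : okM (lm c l) = true →
    Fit i 0 (cn 0 (lm c l)) (cn 1 (lm c l)) (cn 2 (lm c l)) →
    Rep Nb (iw (lm c l)) (lieV T c l) (rmon X (lm c l)) := by
  induction l with
  | nil =>
    intro ho hf
    have : Rep Nb 0 1 1 := ⟨by simp [h0], small_one.mono (by norm_num), by simp [h0, val]⟩
    simpa [lm, iw, lieV, rmon] using (mul_spec' h5 hT ho hf this).1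
  | cons a l ih =>
    intro ho hf
    have ho' : okM (.of a) = true ∧ okM (lm c l) = true := by
      simpa only [lm, okM, Bool.and_eq_true] using ho
    have e := iw_eq ho'.2
    have hf' : Fit i 0 (cn 0 (.of a) + cn 0 (lm c l)) (cn 1 (.of a) + cn 1 (lm c l))
      (cn 2 (.of a) + cn 2 (lm c l)) := hf
    unfold Fit at hf'
    have := mul_spec' h5 hT ho'.1 (j := iw (lm c l)) (by unfold Fit; omega)
      (ih ho'.2 (by unfold Fit; omega))
    simp only [lieV, force_eq]
    exact (this.1.nsub h5 this.2).cast (add_comm _ _)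

theorem symV_spec {y1 y2 y3 : FreeMagma ℕ} (o1 : okM y1 = true) (o2 : okM y2 = true)
    (o3 : okM y3 = true) {j v : ℕ} {t : FreeMagma ℕ}
    (hf : Fit i j (cn 0 y1 + cn 0 y2 + cn 0 y3) (cn 1 y1 + cn 1 y2 + cn 1 y3)
      (cn 2 y1 + cn 2 y2 + cn 2 y3)) (h : Rep Nb j v (rmon X t)) :
    Rep Nb (j + iw y1 + iw y2 + iw y3) (symV T y1 y2 y3 j v) (EE (rmon X) [y1, y2, y3, t]) := by
  have e1 := iw_eq o1
  have e2 := iw_eq o2
  have e3 := iw_eq o3
  unfold Fit at hf
  have A1 := @act_spec R _ X h5 Nb T i hT y1 o1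
  have A2 := @act_spec R _ X h5 Nb T i hT y2 o2
  have A3 := @act_spec R _ X h5 Nb T i hT y3 o3
  have a1 := A1 (by unfold Fit; omega) h
  have a2 := A2 (by unfold Fit; omega) h
  have a3 := A3 (by unfold Fit; omega) h
  have f1 := a1.2.nadd h5 a1.1
  have f2 := a2.2.nadd h5 a2.1
  have f3 := a3.2.nadd h5 a3.1
  have F12 : Fit i (j + iw y1) (cn 0 y2) (cn 1 y2) (cn 2 y2) := by unfold Fit; omega
  have F13 : Fit i (j + iw y1) (cn 0 y3) (cn 1 y3) (cn 2 y3) := by unfold Fit; omega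
  have F21 : Fit i (j + iw y2) (cn 0 y1) (cn 1 y1) (cn 2 y1) := by unfold Fit; omega
  have F23 : Fit i (j + iw y2) (cn 0 y3) (cn 1 y3) (cn 2 y3) := by unfold Fit; omega
  have F31 : Fit i (j + iw y3) (cn 0 y1) (cn 1 y1) (cn 2 y1) := by unfold Fit; omega
  have F32 : Fit i (j + iw y3) (cn 0 y2) (cn 1 y2) (cn 2 y2) := by unfold Fit; omega
  have g12 := (A2 F12 a1.2).2.nadd h5 ((A1 F21 a2.2).2.cast (by omega))
  have g13 := (A3 F13 a1.2).2.nadd h5 ((A1 F31 a3.2).2.cast (by omega))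
  have g23 := (A3 F23 a2.2).2.nadd h5 ((A2 F32 a3.2).2.cast (by omega))
  have f12 := g12.nadd h5 ((A2 F12 f1).1.nadd h5 ((A1 F21 f2).1.cast (by omega)))
  have f13 := g13.nadd h5 ((A3 F13 f1).1.nadd h5 ((A1 F31 f3).1.cast (by omega)))
  have f23 := g23.nadd h5 ((A3 F23 f2).1.nadd h5 ((A2 F32 f3).1.cast (by omega)))
  have F123 : Fit i (j + iw y1 + iw y2) (cn 0 y3) (cn 1 y3) (cn 2 y3) := by unfold Fit; omega
  have F132 : Fit i (j + iw y1 + iw y3) (cn 0 y2) (cn 1 y2) (cn 2 y2) := by unfold Fit; omega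
  have F231 : Fit i (j + iw y2 + iw y3) (cn 0 y1) (cn 1 y1) (cn 2 y1) := by unfold Fit; omega
  have g := (A3 F123 g12).2.nadd h5 (((A2 F132 g13).2.cast (by omega)).nadd h5
    ((A1 F231 g23).2.cast (by omega)))
  have f := g.nadd h5 ((A3 F123 f12).1.nadd h5 (((A2 F132 f13).1.cast (by omega)).nadd h5
    ((A1 F231 f23).1.cast (by omega))))
  simp only [symV, force_eq]
  refine Rep.congr f ?_
  rw [EE_four h5]
  noncomm_ring

theorem pw_spec {a : ℕ} (ha : a < 3) {F : ℕ → ℕ} {f : ℕ → R}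
    (hF : ∀ j, Fit i j 0 0 0 → Rep Nb j (F j) (f j)) (k : ℕ) : ∀ j, Fit i j 0 0 0 →
    k ≤ T3.get ⟨j / 40, j / 8 % 5, j % 8⟩ a →
    Rep Nb j (pw T a F k j) (X a ^ k * f (j - k * st a)) := by
  induction k with
  | zero => intro j hj _; exact (hF j hj).congr (by simp)
  | succ k ih =>
    intro j hj hk
    have e : pw T a F (k + 1) j = lmul T a (j - st a) (pw T a F k (j - st a)) :=
      force_eq (j - st a) fun j' => lmul T a j' (pw T a F k j')
    have key : st a ≤ j ∧ valid j a = true ∧ j ≤ i ∧ Fit i (j - st a) 0 0 0 ∧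
        k ≤ T3.get ⟨(j - st a) / 40, (j - st a) / 8 % 5, (j - st a) % 8⟩ a := by
      unfold Fit at hj ⊢
      interval_cases a
      · change k + 1 ≤ j / 40 at hk
        change _ ∧ _ ∧ _ ∧ _ ∧ k ≤ (j - st 0) / 40
        rw [valid_0, st_0]; omega
      · change k + 1 ≤ j / 8 % 5 at hk
        change _ ∧ _ ∧ _ ∧ _ ∧ k ≤ (j - st 1) / 8 % 5
        rw [valid_1, st_1]; omega
      · change k + 1 ≤ j % 8 at hk
        change _ ∧ _ ∧ _ ∧ _ ∧ k ≤ (j - st 2) % 8
        rw [valid_2, st_2]; omega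
    obtain ⟨k1, k2, k3, k4, k5⟩ := key
    have e2 : j - st a + st a = j := Nat.sub_add_cancel k1
    have := (mul_spec h5 hT ha (by rw [e2]; exact k2) (by omega) (ih _ k4 k5)).1.cast e2
    rw [e, pow_succ', mul_assoc, Nat.succ_mul, add_comm (k * st a), ← Nat.sub_sub]
    exact this

theorem passAux_spec {a : ℕ} (ha : a < 3) {F : ℕ → ℕ} {f : ℕ → R}
    (hF : ∀ j, Fit i j 0 0 0 → Rep Nb j (F j) (f j)) {d : ℕ} (hd : d ≤ 4) {j : ℕ}
    (hj : Fit i j 0 0 0) (m : ℕ) (hm : m ≤ T3.get ⟨j / 40, j / 8 % 5, j % 8⟩ a) :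
    Rep Nb j (passAux T a F d j m)
      (∑ k ∈ Finset.range (m + 1), d.choose k • (X a ^ k * f (j - k * st a))) := by
  induction m with
  | zero => exact (hF j hj).congr (by simp)
  | succ m ih =>
    rw [Finset.sum_range_succ]
    refine (ih (by omega)).nadd' h5 (pw_spec h5 hT ha hF (m + 1) j hj hm) ?_
    calc d.choose (m + 1) ≤ 2 ^ d := Nat.choose_le_two_pow _ _
      _ ≤ 2 ^ 4 := Nat.pow_le_pow_right (by norm_num) hd
      _ ≤ 100 := by norm_num

end act

/-- The word `x ^ a y ^ b z ^ c` of the weight with index `j`. -/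
def l3 (j : ℕ) : List ℕ :=
  List.replicate (j / 40) 0 ++ (List.replicate (j / 8 % 5) 1 ++ (List.replicate (j % 8) 2 ++ []))

theorem mpV_spec (h5 : (5 : R) = 0) {Nb : ℕ → List R} {T : ℕ → Cell}
    (hT : ∀ j ≤ 196, OK X Nb j (T j)) (h0 : Nb 0 = [1]) (m : ℕ) :
    ∀ j, Fit 196 j 0 0 0 → Rep Nb j (mpV T m j) (Mpow X m (l3 j)) := by
  induction m with
  | zero =>
    intro j hj
    unfold Fit at hj
    have hl : (Nb j).length ≤ 500 := (hT j (by omega)).1 ▸ (hT j (by omega)).2.1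
    by_cases h : j = 0
    · subst h
      exact ⟨hl, small_one.mono (by norm_num), by simp [h0, val, mpV, Mpow, l3, delta]⟩
    · have e : mpV T 0 j = 0 := by
        change (bif Nat.beq j 0 then 1 else 0) = 0
        rw [show Nat.beq j 0 = false from beq_false h]; rfl
      rw [e]
      refine ⟨hl, small_zero 4, ?_⟩
      rw [val_zero]
      have : l3 j ≠ [] := by
        intro h'
        have := congrArg List.length h'
        simp [l3] at this
        omega
      cases e' : l3 j with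
      | nil => exact absurd e' this
      | cons a l => rfl
  | succ m ih =>
    have p2 : ∀ j, Fit 196 j 0 0 0 → Rep Nb j (passAux T 2 (mpV T m) (j % 8) j (j % 8))
        (conv (List.replicate (j % 8) 2 ++ []) (fun t => (t.map X).prod) fun t =>
          Mpow X m (List.replicate (j / 40) 0 ++ (List.replicate (j / 8 % 5) 1 ++ t))) := by
      intro j hj
      convert passAux_spec h5 hT (a := 2) (by norm_num) ih (d := j % 8)
        (by unfold Fit at hj; omega) hj (j % 8) le_rfl using 1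
      rw [conv_prod_replicate]
      refine Finset.sum_congr rfl fun k hk => ?_
      have := Finset.mem_range.1 hk
      rw [l3, st_2, show (j - k * 1) / 40 = j / 40 by omega,
        show (j - k * 1) / 8 % 5 = j / 8 % 5 by omega, show (j - k * 1) % 8 = j % 8 - k by omega]
      simp
    have p1 : ∀ j, Fit 196 j 0 0 0 → Rep Nb j (passAux T 1
        (fun j => passAux T 2 (mpV T m) (j % 8) j (j % 8)) (j / 8 % 5) j (j / 8 % 5))
        (conv (List.replicate (j / 8 % 5) 1 ++ (List.replicate (j % 8) 2 ++ []))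
          (fun t => (t.map X).prod) fun t => Mpow X m (List.replicate (j / 40) 0 ++ t)) := by
      intro j hj
      convert passAux_spec h5 hT (a := 1) (by norm_num) p2 (d := j / 8 % 5)
        (by omega) hj (j / 8 % 5) le_rfl using 1
      rw [conv_prod_replicate]
      refine Finset.sum_congr rfl fun k hk => ?_
      have := Finset.mem_range.1 hk
      rw [st_1, show (j - k * 8) / 40 = j / 40 by omega,
        show (j - k * 8) / 8 % 5 = j / 8 % 5 - k by omega, show (j - k * 8) % 8 = j % 8 by omega]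
    intro j hj
    have e : mpV T (m + 1) j = passAux T 0 (fun j => passAux T 1
        (fun j => passAux T 2 (mpV T m) (j % 8) j (j % 8)) (j / 8 % 5) j (j / 8 % 5))
        (j / 40) j (j / 40) := by
      simp only [mpV, force_eq]
    rw [e]
    convert passAux_spec h5 hT (a := 0) (by norm_num) p1 (d := j / 40)
      (by unfold Fit at hj; omega) hj (j / 40) le_rfl using 1
    rw [Mpow_succ, l3, conv_prod_replicate]
    refine Finset.sum_congr rfl fun k hk => ?_
    have := Finset.mem_range.1 hk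
    rw [st_0, show (j - k * 40) / 40 = j / 40 - k by omega,
      show (j - k * 40) / 8 % 5 = j / 8 % 5 by omega, show (j - k * 40) % 8 = j % 8 by omega]

theorem topChk_sound (h5 : (5 : R) = 0) {Nb : ℕ → List R} {T : ℕ → Cell}
    (hT : ∀ j ≤ 196, OK X Nb j (T j)) (h0 : Nb 0 = [1]) (h : topChk T = true) :
    EE X (l3 196) = 0 := by
  have r := fun m => mpV_spec h5 hT h0 m 196 (by unfold Fit; omega)
  have := (((((r 0).nadd h5 (r 1)).nadd h5 (r 2)).nadd h5 (r 3)).nadd h5 (r 4)).2.2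
  have h' := Nat.eq_of_beq_eq_true h
  simp only [EE, Finset.sum_range_succ, Finset.sum_range_zero, zero_add]
  rw [← this]
  exact (congrArg (val (Nb 196)) h').trans (val_zero _)

theorem evRels_sound (h5 : (5 : R) = 0)
    (hE : ∀ p q r s : FreeMagma ℕ, EE (rmon X) [p, q, r, s] = 0) {Nb : ℕ → List R} {T : ℕ → Cell}
    {i : ℕ} (hi : 0 < i) (hT : ∀ k < i, OK X Nb k (T k)) (h0 : Nb 0 = [1]) {G N : List R}
    {plus : Cell} (hp : OK X (Function.update Nb i (G ++ N)) i plus) (rels : List Rel) :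
    ∀ k : List ℕ → Bool, evRels T i G.length plus rels k = true →
      ∃ rho, Tab G (List.replicate rels.length 0) rho ∧ k rho = true := by
  have hT' : ∀ j ≤ i, OK X (Function.update Nb i (G ++ N)) j
      (bif Nat.beq j i then plus else T j) := by
    intro j hj
    rcases hj.eq_or_lt with rfl | hj
    · rw [Nat.beq_refl]; exact hp
    · rw [show Nat.beq j i = false from beq_false hj.ne]
      exact (hT j hj).update hj _
  have hl : (G ++ N).length ≤ 500 := by
    have := hp.1 ▸ hp.2.1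
    rwa [Function.update_self] at this
  induction rels with
  | nil => exact fun k h => ⟨[], List.Forall₂.nil, h⟩
  | cons r rels ih =>
    intro k h
    have h' : (okRel i r && force (evRel T i plus r) fun v =>
      Nat.beq (shr v G.length) 0 && evRels T i G.length plus rels fun l => k (v :: l)) = true := h
    simp only [Bool.and_eq_true, force_eq, Nat.beq_eq, shr_eq] at h'
    obtain ⟨ho, hz, hr⟩ := h'
    obtain ⟨rho, h1, h2⟩ := ih _ hr
    refine ⟨_ :: rho, List.Forall₂.cons ?_ h1, h2⟩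
    suffices H : Small 4 (evRel T i plus r) ∧ val (G ++ N) (evRel T i plus r) = 0 by
      refine ⟨H.1, ?_⟩
      have := H.2
      rwa [val_append, hz, val_zero, add_zero] at this
    cases r with
    | assoc a b j =>
      simp only [okRel, Bool.and_eq_true, Nat.ble_eq] at ho
      have ha : a < 3 := Nat.lt_succ_of_le ho.1
      have hb : b < 3 := Nat.lt_succ_of_le ho.2
      have hP : Pair X Nb i a b (nth (Zab T i a b) (0, 0) j) := by
        rw [nth_eq]
        rcases Nat.lt_or_ge j (Zab T i a b).length with hj | hj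
        · rw [List.getD_eq_getElem _ _ hj]; exact Zab_pair hT ha hb _ (List.getElem_mem _)
        · rw [List.getD_eq_default _ _ hj]
          exact ⟨small_zero 4, small_zero 4, 0, by simp [val_zero], by simp [val_zero]⟩
      have e : evRel T i plus (.assoc a b j) = nvm (plus.R.get b) (nth (Zab T i a b) (0, 0) j).1
          (4 * nvm (plus.L.get a) (nth (Zab T i a b) (0, 0) j).2 0) := rfl
      rw [e]
      obtain ⟨s1, s2, u, u1, u2⟩ := hP
      have t1 := (hp.2.2 a ha).1
      have t2 := (hp.2.2 b hb).2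
      rw [Function.update_self] at t1 t2
      simp only [EL, ER, pred_update Nb le_rfl ha, pred_update Nb le_rfl hb] at t1 t2
      have r1 := nvm_spec h5 t1 (by omega) (by simpa using (pdim_eq hT ha).2) s2 (small_zero 100)
      have r2 := nvm_spec h5 t2 (by omega) (by simpa using (pdim_eq hT hb).2) s1
        ((small_mul_aux r1.1 4 (by norm_num)).1.mono (by norm_num))
      refine ⟨r2.1, ?_⟩
      rw [r2.2, val_mul r1.1 _ _ (by norm_num), r1.2, val_zero, zero_add, val_map_left,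
        val_map_right, u1, u2, mul_assoc, ← succ_nsmul, nsmul_eq_mul]
      simp [h5]
    | ev y1 y2 y3 c l =>
      simp only [okRel, Bool.and_eq_true, Nat.beq_eq] at ho
      obtain ⟨⟨⟨⟨⟨⟨o1, o2⟩, o3⟩, o4⟩, c0⟩, c1⟩, c2⟩ := ho
      have e1 := iw_eq o1
      have e2 := iw_eq o2
      have e3 := iw_eq o3
      have e4 := iw_eq o4
      have r1 := lieV_spec h5 hT' (by rw [Function.update_of_ne hi.ne, h0]) c l o4
        (by unfold Fit; omega)
      have r2 := (symV_spec h5 hT' o1 o2 o3 (by unfold Fit; omega) r1).cast (j' := i) (by omega)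
      rw [hE] at r2
      simp only [evRel, force_eq]
      have := r2.2
      rwa [Function.update_self] at this

theorem check_sound (h5 : (5 : R) = 0)
    (hE : ∀ p q r s : FreeMagma ℕ, EE (rmon X) [p, q, r, s] = 0) {Nb : ℕ → List R} {T : ℕ → Cell}
    {i : ℕ} (hi : 0 < i) (hT : ∀ k < i, OK X Nb k (T k)) (h0 : Nb 0 = [1]) {pr : Prog}
    (h : check T i pr = true) : ∃ N, OK X (Function.update Nb i N) i (T i) := by
  simp only [check, force_eq, Bool.and_eq_true, Nat.ble_eq, Nat.add_eq] at h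
  obtain ⟨⟨hlen, hrl⟩, h⟩ := h
  have hp : ∀ a < 3, (pred Nb i a).length ≤ 500 := fun a ha => (pdim_eq hT ha).2
  set N := newN X Nb i (T i).dim pr.NP with hN
  set G := newG X Nb i (T i).dim pr.NP pr.K pr.GP with hG
  have hGl : pr.GP.length = G.length := by simp [hG, newG]
  have hNl : N.length = (T i).dim := by simp [hN, newN]
  have init : ∀ b < 3, PT (G ++ N) (ER X Nb i b)
      (T3.get (⟨([], pdim T i 0), ([], pdim T i 1), ([], pdim T i 2)⟩ : T3 (List ℕ × ℕ)) b).1
      (T3.get (⟨([], pdim T i 0), ([], pdim T i 1), ([], pdim T i 2)⟩ : T3 (List ℕ × ℕ)) b).2 := by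
    intro b hb
    have := PT.init (G ++ N) (ER X Nb i b)
    rw [show (ER X Nb i b).length = pdim T i b by rw [ER, List.length_map, (pdim_eq hT hb).1]]
      at this
    interval_cases b <;> exact this
  obtain ⟨L0, R1, t0, r1, h⟩ := stage_sound h5 hlen hp hT (a := 0) (by norm_num) init h
  obtain ⟨L1, R2, t1, r2, h⟩ := stage_sound h5 hlen hp hT (a := 1) (by norm_num) r1 h
  obtain ⟨L2, R3, t2, r3, h⟩ := stage_sound h5 hlen hp hT (a := 2) (by norm_num) r2 h
  simp only [Bool.and_eq_true, Nat.beq_eq] at h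
  obtain ⟨⟨⟨⟨⟨⟨⟨⟨⟨k0, k1⟩, k2⟩, c0⟩, c1⟩, c2⟩, c3⟩, c4⟩, c5⟩, h⟩ := h
  obtain ⟨⟨Ra, ka⟩, ⟨Rb, kb⟩, ⟨Rc, kc⟩⟩ := R3
  dsimp only at k0 k1 k2 c3 c4 c5 h
  subst k0 k1 k2
  have t3 : Tab (G ++ N) (ER X Nb i 0) Ra := (r3 0 (by norm_num)).2
  have t4 : Tab (G ++ N) (ER X Nb i 1) Rb := (r3 1 (by norm_num)).2
  have t5 : Tab (G ++ N) (ER X Nb i 2) Rc := (r3 2 (by norm_num)).2
  have hplus : OK X (Function.update Nb i (G ++ N)) i
      ⟨pr.GP.length + (T i).dim, ⟨L0, L1, L2⟩, ⟨Ra, Rb, Rc⟩⟩ := by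
    refine ⟨by simp [hGl, hNl], hlen, fun a ha => ?_⟩
    simp only [EL, ER, pred_update Nb le_rfl ha, Function.update_self]
    interval_cases a
    exacts [⟨t0, t3⟩, ⟨t1, t4⟩, ⟨t2, t5⟩]
  rw [hGl] at h c0 c1 c2 c3 c4 c5
  rw [hGl] at hplus
  obtain ⟨rho, h1, h2⟩ := evRels_sound h5 hE hi hT h0 hplus _ _ h
  have hz := lamChk_sound h5 (by omega) (by simpa using hrl)
    (fun e he => List.eq_of_mem_replicate he) h1 _ _ _ h2
  have hG0 : ∀ e ∈ G, e = 0 := by
    intro e he
    obtain ⟨k, hk, rfl⟩ := List.getElem_of_mem he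
    rw [← hz k (Nat.zero_le _), List.getD_eq_getElem _ _ hk]
  refine ⟨N, by simp [hNl], by omega, fun a ha => ?_⟩
  simp only [EL, ER, pred_update Nb le_rfl ha, Function.update_self]
  rcases hc : T i with ⟨d, ⟨l0, l1, l2⟩, ⟨s0, s1, s2⟩⟩
  rw [hc] at c0 c1 c2 c3 c4 c5
  interval_cases a
  exacts [⟨cmp_sound hG0 t0 _ c0, cmp_sound hG0 t3 _ c3⟩,
    ⟨cmp_sound hG0 t1 _ c1, cmp_sound hG0 t4 _ c4⟩, ⟨cmp_sound hG0 t2 _ c2, cmp_sound hG0 t5 _ c5⟩]

end Kos.Chk
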