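import Pool.Agent.P.MP_80c021_al.Dat0
import Pool.Agent.P.MP_80c021_al.Dat1
import Pool.Agent.P.MP_80c021_al.Dat2
import Pool.Agent.P.MP_80c021_al.Dat3
import Pool.Agent.P.MP_80c021_al.Dat4
import Pool.Agent.P.MP_80c021_al.Dat5

/-! The table of all weights. -/

namespace Kos.Chk

noncomputable def c0 : Cell := ⟨1, ⟨[], [], []⟩, ⟨[], [], []⟩⟩
noncomputable def c1 : Cell := ⟨1, ⟨[], [], [1]⟩, ⟨[], [], [1]⟩⟩
noncomputable def c8 : Cell := ⟨1, ⟨[], [1], []⟩, ⟨[], [1], []⟩⟩
noncomputable def c40 : Cell := ⟨1, ⟨[1], [], []⟩, ⟨[1], [], []⟩⟩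

noncomputable def TT (j : ℕ) : Cell :=
  (bif Nat.ble j (nat_lit 99) then (bif Nat.ble j (nat_lit 49) then (bif Nat.ble j (nat_lit 24) then (bif Nat.ble j (nat_lit 12) then (bif Nat.ble j (nat_lit 6) then (bif Nat.ble j (nat_lit 3) then (bif Nat.ble j (nat_lit 1) then (bif Nat.ble j (nat_lit 0) then c0 else
  c1) else
  (bif Nat.ble j (nat_lit 2) then c2 else
  c3)) else
  (bif Nat.ble j (nat_lit 5) then (bif Nat.ble j (nat_lit 4) then c4 else
  c5) else
  c6)) else
  (bif Nat.ble j (nat_lit 9) then (bif Nat.ble j (nat_lit 8) then (bif Nat.ble j (nat_lit 7) then c7 else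
  c8) else
  c9) else
  (bif Nat.ble j (nat_lit 11) then (bif Nat.ble j (nat_lit 10) then c10 else
  c11) else
  c12))) else
  (bif Nat.ble j (nat_lit 18) then (bif Nat.ble j (nat_lit 15) then (bif Nat.ble j (nat_lit 14) then (bif Nat.ble j (nat_lit 13) then c13 else
  c14) else
  c15) else
  (bif Nat.ble j (nat_lit 17) then (bif Nat.ble j (nat_lit 16) then c16 else
  c17) else
  c18)) else
  (bif Nat.ble j (nat_lit 21) then (bif Nat.ble j (nat_lit 20) then (bif Nat.ble j (nat_lit 19) then c19 else
  c20) else
  c21) else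
  (bif Nat.ble j (nat_lit 23) then (bif Nat.ble j (nat_lit 22) then c22 else
  c23) else
  c24)))) else
  (bif Nat.ble j (nat_lit 37) then (bif Nat.ble j (nat_lit 31) then (bif Nat.ble j (nat_lit 28) then (bif Nat.ble j (nat_lit 26) then (bif Nat.ble j (nat_lit 25) then c25 else
  c26) else
  (bif Nat.ble j (nat_lit 27) then c27 else
  c28)) else
  (bif Nat.ble j (nat_lit 30) then (bif Nat.ble j (nat_lit 29) then c29 else
  c30) else
  c31)) else
  (bif Nat.ble j (nat_lit 34) then (bif Nat.ble j (nat_lit 33) then (bif Nat.ble j (nat_lit 32) then c32 else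
  c33) else
  c34) else
  (bif Nat.ble j (nat_lit 36) then (bif Nat.ble j (nat_lit 35) then c35 else
  c36) else
  c37))) else
  (bif Nat.ble j (nat_lit 43) then (bif Nat.ble j (nat_lit 40) then (bif Nat.ble j (nat_lit 39) then (bif Nat.ble j (nat_lit 38) then c38 else
  c39) else
  c40) else
  (bif Nat.ble j (nat_lit 42) then (bif Nat.ble j (nat_lit 41) then c41 else
  c42) else
  c43)) else
  (bif Nat.ble j (nat_lit 46) then (bif Nat.ble j (nat_lit 45) then (bif Nat.ble j (nat_lit 44) then c44 else
  c45) else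
  c46) else
  (bif Nat.ble j (nat_lit 48) then (bif Nat.ble j (nat_lit 47) then c47 else
  c48) else
  c49))))) else
  (bif Nat.ble j (nat_lit 74) then (bif Nat.ble j (nat_lit 62) then (bif Nat.ble j (nat_lit 56) then (bif Nat.ble j (nat_lit 53) then (bif Nat.ble j (nat_lit 51) then (bif Nat.ble j (nat_lit 50) then c50 else
  c51) else
  (bif Nat.ble j (nat_lit 52) then c52 else
  c53)) else
  (bif Nat.ble j (nat_lit 55) then (bif Nat.ble j (nat_lit 54) then c54 else
  c55) else
  c56)) else
  (bif Nat.ble j (nat_lit 59) then (bif Nat.ble j (nat_lit 58) then (bif Nat.ble j (nat_lit 57) then c57 else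
  c58) else
  c59) else
  (bif Nat.ble j (nat_lit 61) then (bif Nat.ble j (nat_lit 60) then c60 else
  c61) else
  c62))) else
  (bif Nat.ble j (nat_lit 68) then (bif Nat.ble j (nat_lit 65) then (bif Nat.ble j (nat_lit 64) then (bif Nat.ble j (nat_lit 63) then c63 else
  c64) else
  c65) else
  (bif Nat.ble j (nat_lit 67) then (bif Nat.ble j (nat_lit 66) then c66 else
  c67) else
  c68)) else
  (bif Nat.ble j (nat_lit 71) then (bif Nat.ble j (nat_lit 70) then (bif Nat.ble j (nat_lit 69) then c69 else
  c70) else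
  c71) else
  (bif Nat.ble j (nat_lit 73) then (bif Nat.ble j (nat_lit 72) then c72 else
  c73) else
  c74)))) else
  (bif Nat.ble j (nat_lit 87) then (bif Nat.ble j (nat_lit 81) then (bif Nat.ble j (nat_lit 78) then (bif Nat.ble j (nat_lit 76) then (bif Nat.ble j (nat_lit 75) then c75 else
  c76) else
  (bif Nat.ble j (nat_lit 77) then c77 else
  c78)) else
  (bif Nat.ble j (nat_lit 80) then (bif Nat.ble j (nat_lit 79) then c79 else
  c80) else
  c81)) else
  (bif Nat.ble j (nat_lit 84) then (bif Nat.ble j (nat_lit 83) then (bif Nat.ble j (nat_lit 82) then c82 else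
  c83) else
  c84) else
  (bif Nat.ble j (nat_lit 86) then (bif Nat.ble j (nat_lit 85) then c85 else
  c86) else
  c87))) else
  (bif Nat.ble j (nat_lit 93) then (bif Nat.ble j (nat_lit 90) then (bif Nat.ble j (nat_lit 89) then (bif Nat.ble j (nat_lit 88) then c88 else
  c89) else
  c90) else
  (bif Nat.ble j (nat_lit 92) then (bif Nat.ble j (nat_lit 91) then c91 else
  c92) else
  c93)) else
  (bif Nat.ble j (nat_lit 96) then (bif Nat.ble j (nat_lit 95) then (bif Nat.ble j (nat_lit 94) then c94 else
  c95) else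
  c96) else
  (bif Nat.ble j (nat_lit 98) then (bif Nat.ble j (nat_lit 97) then c97 else
  c98) else
  c99)))))) else
  (bif Nat.ble j (nat_lit 149) then (bif Nat.ble j (nat_lit 124) then (bif Nat.ble j (nat_lit 112) then (bif Nat.ble j (nat_lit 106) then (bif Nat.ble j (nat_lit 103) then (bif Nat.ble j (nat_lit 101) then (bif Nat.ble j (nat_lit 100) then c100 else
  c101) else
  (bif Nat.ble j (nat_lit 102) then c102 else
  c103)) else
  (bif Nat.ble j (nat_lit 105) then (bif Nat.ble j (nat_lit 104) then c104 else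
  c105) else
  c106)) else
  (bif Nat.ble j (nat_lit 109) then (bif Nat.ble j (nat_lit 108) then (bif Nat.ble j (nat_lit 107) then c107 else
  c108) else
  c109) else
  (bif Nat.ble j (nat_lit 111) then (bif Nat.ble j (nat_lit 110) then c110 else
  c111) else
  c112))) else
  (bif Nat.ble j (nat_lit 118) then (bif Nat.ble j (nat_lit 115) then (bif Nat.ble j (nat_lit 114) then (bif Nat.ble j (nat_lit 113) then c113 else
  c114) else
  c115) else
  (bif Nat.ble j (nat_lit 117) then (bif Nat.ble j (nat_lit 116) then c116 else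
  c117) else
  c118)) else
  (bif Nat.ble j (nat_lit 121) then (bif Nat.ble j (nat_lit 120) then (bif Nat.ble j (nat_lit 119) then c119 else
  c120) else
  c121) else
  (bif Nat.ble j (nat_lit 123) then (bif Nat.ble j (nat_lit 122) then c122 else
  c123) else
  c124)))) else
  (bif Nat.ble j (nat_lit 137) then (bif Nat.ble j (nat_lit 131) then (bif Nat.ble j (nat_lit 128) then (bif Nat.ble j (nat_lit 126) then (bif Nat.ble j (nat_lit 125) then c125 else
  c126) else
  (bif Nat.ble j (nat_lit 127) then c127 else
  c128)) else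
  (bif Nat.ble j (nat_lit 130) then (bif Nat.ble j (nat_lit 129) then c129 else
  c130) else
  c131)) else
  (bif Nat.ble j (nat_lit 134) then (bif Nat.ble j (nat_lit 133) then (bif Nat.ble j (nat_lit 132) then c132 else
  c133) else
  c134) else
  (bif Nat.ble j (nat_lit 136) then (bif Nat.ble j (nat_lit 135) then c135 else
  c136) else
  c137))) else
  (bif Nat.ble j (nat_lit 143) then (bif Nat.ble j (nat_lit 140) then (bif Nat.ble j (nat_lit 139) then (bif Nat.ble j (nat_lit 138) then c138 else
  c139) else
  c140) else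
  (bif Nat.ble j (nat_lit 142) then (bif Nat.ble j (nat_lit 141) then c141 else
  c142) else
  c143)) else
  (bif Nat.ble j (nat_lit 146) then (bif Nat.ble j (nat_lit 145) then (bif Nat.ble j (nat_lit 144) then c144 else
  c145) else
  c146) else
  (bif Nat.ble j (nat_lit 148) then (bif Nat.ble j (nat_lit 147) then c147 else
  c148) else
  c149))))) else
  (bif Nat.ble j (nat_lit 174) then (bif Nat.ble j (nat_lit 162) then (bif Nat.ble j (nat_lit 156) then (bif Nat.ble j (nat_lit 153) then (bif Nat.ble j (nat_lit 151) then (bif Nat.ble j (nat_lit 150) then c150 else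
  c151) else
  (bif Nat.ble j (nat_lit 152) then c152 else
  c153)) else
  (bif Nat.ble j (nat_lit 155) then (bif Nat.ble j (nat_lit 154) then c154 else
  c155) else
  c156)) else
  (bif Nat.ble j (nat_lit 159) then (bif Nat.ble j (nat_lit 158) then (bif Nat.ble j (nat_lit 157) then c157 else
  c158) else
  c159) else
  (bif Nat.ble j (nat_lit 161) then (bif Nat.ble j (nat_lit 160) then c160 else
  c161) else
  c162))) else
  (bif Nat.ble j (nat_lit 168) then (bif Nat.ble j (nat_lit 165) then (bif Nat.ble j (nat_lit 164) then (bif Nat.ble j (nat_lit 163) then c163 else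
  c164) else
  c165) else
  (bif Nat.ble j (nat_lit 167) then (bif Nat.ble j (nat_lit 166) then c166 else
  c167) else
  c168)) else
  (bif Nat.ble j (nat_lit 171) then (bif Nat.ble j (nat_lit 170) then (bif Nat.ble j (nat_lit 169) then c169 else
  c170) else
  c171) else
  (bif Nat.ble j (nat_lit 173) then (bif Nat.ble j (nat_lit 172) then c172 else
  c173) else
  c174)))) else
  (bif Nat.ble j (nat_lit 187) then (bif Nat.ble j (nat_lit 181) then (bif Nat.ble j (nat_lit 178) then (bif Nat.ble j (nat_lit 176) then (bif Nat.ble j (nat_lit 175) then c175 else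
  c176) else
  (bif Nat.ble j (nat_lit 177) then c177 else
  c178)) else
  (bif Nat.ble j (nat_lit 180) then (bif Nat.ble j (nat_lit 179) then c179 else
  c180) else
  c181)) else
  (bif Nat.ble j (nat_lit 184) then (bif Nat.ble j (nat_lit 183) then (bif Nat.ble j (nat_lit 182) then c182 else
  c183) else
  c184) else
  (bif Nat.ble j (nat_lit 186) then (bif Nat.ble j (nat_lit 185) then c185 else
  c186) else
  c187))) else
  (bif Nat.ble j (nat_lit 193) then (bif Nat.ble j (nat_lit 190) then (bif Nat.ble j (nat_lit 189) then (bif Nat.ble j (nat_lit 188) then c188 else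
  c189) else
  c190) else
  (bif Nat.ble j (nat_lit 192) then (bif Nat.ble j (nat_lit 191) then c191 else
  c192) else
  c193)) else
  (bif Nat.ble j (nat_lit 196) then (bif Nat.ble j (nat_lit 195) then (bif Nat.ble j (nat_lit 194) then c194 else
  c195) else
  c196) else
  (bif Nat.ble j (nat_lit 198) then (bif Nat.ble j (nat_lit 197) then c197 else
  c198) else
  c199)))))))

end Kos.Chk
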