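import Mathlib

/-!
# Vectors over `ℤ / 5` packed into natural numbers (base `65536`)
-/

namespace Kos.Chk

variable {R : Type*} [Ring R]

/-- The `i`-th digit in base `65536`. -/
def dig (v i : ℕ) : ℕ := v / 65536 ^ i % 65536

theorem dig_zero (v : ℕ) : dig v 0 = v % 65536 := by simp [dig]

theorem dig_succ (v i : ℕ) : dig v (i + 1) = dig (v / 65536) i := by
  simp [dig, pow_succ', Nat.div_div_eq_div_mul]

theorem dig_lt (v i : ℕ) : dig v i < 65536 := Nat.mod_lt _ (by norm_num)

/-- All digits are at most `m`. -/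
def Small (m v : ℕ) : Prop := ∀ i, dig v i ≤ m

theorem Small.mono {m m' v : ℕ} (h : Small m v) (hm : m ≤ m') : Small m' v :=
  fun i => (h i).trans hm

theorem Small.div {m v : ℕ} (h : Small m v) : Small m (v / 65536) :=
  fun i => by rw [← dig_succ]; exact h _

theorem Small.head {m v : ℕ} (h : Small m v) : v % 65536 ≤ m := by rw [← dig_zero]; exact h 0

theorem small_zero (m : ℕ) : Small m 0 := fun i => by simp [dig]

theorem dig_div_pow (v k i : ℕ) : dig (v / 65536 ^ k) i = dig v (k + i) := by
  simp [dig, pow_add, Nat.div_div_eq_div_mul]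

theorem Small.div_pow {m v : ℕ} (h : Small m v) (k : ℕ) : Small m (v / 65536 ^ k) :=
  fun i => by rw [dig_div_pow]; exact h _

theorem dig_add {m m' : ℕ} (hm : m + m' < 65536) (i : ℕ) : ∀ {u v : ℕ}, Small m u → Small m' v →
    dig (u + v) i = dig u i + dig v i := by
  induction i with
  | zero => intro u v hu hv; have := hu.head; have := hv.head; simp only [dig_zero]; omega
  | succ i ih =>
    intro u v hu hv
    have := hu.head; have := hv.head
    rw [dig_succ, dig_succ, dig_succ, ← ih hu.div hv.div]
    congr 1; omega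

theorem Small.add {m m' u v : ℕ} (hu : Small m u) (hv : Small m' v) (hm : m + m' < 65536) :
    Small (m + m') (u + v) := fun i => by
  rw [dig_add hm i hu hv]; exact add_le_add (hu i) (hv i)

theorem small_mul_aux {m v : ℕ} (hv : Small m v) (c : ℕ) (hm : c * m < 65536) :
    Small (c * m) (c * v) ∧ ∀ i, dig (c * v) i = c * dig v i := by
  induction c with
  | zero => exact ⟨by simpa using small_zero 0, fun i => by simp [dig]⟩
  | succ c ih =>
    rw [Nat.succ_mul] at hm
    obtain ⟨h1, h2⟩ := ih (by omega)
    rw [Nat.succ_mul, Nat.succ_mul]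
    exact ⟨h1.add hv hm, fun i => by rw [dig_add hm i h1 hv, h2, Nat.succ_mul]⟩

theorem dig_land (u v i : ℕ) : dig (u &&& v) i = dig u i &&& dig v i := by
  have : (65536 : ℕ) ^ i = 2 ^ (16 * i) := by rw [pow_mul]; norm_num
  simp only [dig, this]
  rw [Nat.and_div_two_pow, show (65536 : ℕ) = 2 ^ 16 by norm_num, Nat.and_mod_two_pow]

theorem dig_shift (v i s : ℕ) (hs : s ≤ 16) :
    dig (v / 2 ^ s) i % 2 ^ (16 - s) = dig v i / 2 ^ s := by
  simp only [dig]
  rw [Nat.div_div_eq_div_mul, mul_comm, ← Nat.div_div_eq_div_mul]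
  generalize v / 65536 ^ i = w
  have e : (65536 : ℕ) = 2 ^ s * 2 ^ (16 - s) := by
    rw [← pow_add, Nat.add_sub_cancel' hs]; norm_num
  rw [Nat.mod_mod_of_dvd _ (e ▸ Dvd.intro_left _ rfl)]
  conv_rhs => rw [e]
  rw [Nat.mod_mul_right_div_self]

/-- The number with `n` digits equal to `c`. -/
def rep : ℕ → ℕ → ℕ
  | 0, _ => 0
  | n + 1, c => c + 65536 * rep n c

theorem dig_rep {c : ℕ} (hc : c < 65536) (n : ℕ) : ∀ i, dig (rep n c) i = if i < n then c else 0 := by
  induction n with
  | zero => intro i; simp [rep, dig]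
  | succ n ih =>
    intro i
    cases i with
    | zero => simp only [dig_zero, rep]; simp; omega
    | succ i =>
      rw [dig_succ, rep, show (c + 65536 * rep n c) / 65536 = rep n c by omega, ih]; simp

/-- Masks. -/
def M7 : ℕ := 7 * ((65536 ^ 1024 - 1) / 65535)
/-- Masks. -/
def M63 : ℕ := 63 * ((65536 ^ 1024 - 1) / 65535)
/-- Masks. -/
def M255 : ℕ := 255 * ((65536 ^ 1024 - 1) / 65535)

theorem M7_eq : M7 = rep 1024 7 := by decide +kernel
theorem M63_eq : M63 = rep 1024 63 := by decide +kernel
theorem M255_eq : M255 = rep 1024 255 := by decide +kernel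

theorem dig_mask (v i k : ℕ) (hk : k ≤ 16) :
    dig (v &&& rep 1024 (2 ^ k - 1)) i = if i < 1024 then dig v i % 2 ^ k else 0 := by
  have : 2 ^ k ≤ 2 ^ 16 := Nat.pow_le_pow_right (by norm_num) hk
  have : 0 < 2 ^ k := by positivity
  rw [dig_land, dig_rep (by omega)]
  split_ifs
  · exact Nat.and_two_pow_sub_one_eq_mod _ _
  · simp

theorem small_land7 (v : ℕ) : Small 7 (Nat.land v M7) := fun i => by
  have := dig_mask v i 3 (by norm_num)
  change dig (v &&& M7) i ≤ 7
  rw [M7_eq]
  norm_num at this
  rw [this]; split_ifs <;> omega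

/-- Digit-parallel reduction modulo five. -/
def nrm (n : ℕ) : ℕ :=
  (fun s => Nat.land (Nat.add s (Nat.mul (nat_lit 3)
      (Nat.land (Nat.shiftRight (Nat.mul (nat_lit 205) s) (nat_lit 10)) M63))) M7)
    (Nat.add (Nat.land n M255) (Nat.land (Nat.shiftRight n (nat_lit 8)) M255))

theorem mod_aux : ∀ s < 287, (s + 3 * (205 * s / 1024)) % 8 = s % 5 := by decide +kernel

theorem dig_nrm {n : ℕ} (hn : Small 8191 n) (i : ℕ) :
    dig (nrm n) i = if i < 1024 then dig n i % 5 else 0 := by
  have m7 := fun v i => dig_mask v i 3 (by norm_num)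
  have m63 := fun v i => dig_mask v i 6 (by norm_num)
  have m255 := fun v i => dig_mask v i 8 (by norm_num)
  have s8 := fun v i => dig_shift v i 8 (by norm_num)
  have s10 := fun v i => dig_shift v i 10 (by norm_num)
  norm_num at m7 m63 m255 s8 s10
  have e : nrm n = ((n &&& rep 1024 255) + (n / 256 &&& rep 1024 255) + 3 *
      ((205 * ((n &&& rep 1024 255) + (n / 256 &&& rep 1024 255)) / 1024) &&& rep 1024 63)) &&&
        rep 1024 7 := by
    rw [← M7_eq, ← M63_eq, ← M255_eq]
    simp only [nrm, Nat.land_eq, Nat.add_eq, Nat.mul_eq, Nat.shiftRight_eq, Nat.shiftRight_eq_div_pow]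
  have h1 : Small 255 (n &&& rep 1024 255) := fun i => by rw [m255]; split_ifs <;> omega
  have h2 : Small 31 (n / 256 &&& rep 1024 255) := fun i => by
    rw [m255, s8]; have := hn i; split_ifs <;> omega
  have h3 := h1.add h2 (by norm_num)
  have d3 : ∀ i, i < 1024 → dig ((n &&& rep 1024 255) + (n / 256 &&& rep 1024 255)) i =
      dig n i % 256 + dig n i / 256 := fun i hi => by
    rw [dig_add (by norm_num) i h1 h2, m255, m255, s8, if_pos hi, if_pos hi]
  rw [e]
  generalize (n &&& rep 1024 255) + (n / 256 &&& rep 1024 255) = s at h3 d3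
  have h4 := small_mul_aux h3 205 (by norm_num)
  have h5 : Small 63 (205 * s / 1024 &&& rep 1024 63) := fun i => by rw [m63]; split_ifs <;> omega
  have h6 := small_mul_aux h5 3 (by norm_num)
  rw [m7]
  split_ifs with hi
  · rw [dig_add (by norm_num) i h3 h6.1, h6.2, m63, if_pos hi, s10, h4.2, d3 i hi]
    have := hn i
    rw [mod_aux _ (by omega)]
    omega
  · rfl

theorem small_nrm {n : ℕ} (hn : Small 8191 n) : Small 4 (nrm n) := fun i => by
  rw [dig_nrm hn]; split_ifs <;> omega

/-- The ring element with coordinates `v` with respect to the list `E`. -/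
def val : List R → ℕ → R
  | [], _ => 0
  | e :: E, v => (v % 65536) • e + val E (v / 65536)

theorem val_zero (E : List R) : val E 0 = 0 := by
  induction E with
  | nil => rfl
  | cons e E ih => simp [val, ih]

theorem val_add {m m' : ℕ} (hm : m + m' < 65536) (E : List R) : ∀ {u v : ℕ}, Small m u →
    Small m' v → val E (u + v) = val E u + val E v := by
  induction E with
  | nil => intros; simp [val]
  | cons e E ih =>
    intro u v hu hv
    have := hu.head; have := hv.head
    simp only [val]
    rw [show (u + v) % 65536 = u % 65536 + v % 65536 by omega,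
      show (u + v) / 65536 = u / 65536 + v / 65536 by omega, ih hu.div hv.div, add_smul]
    abel

theorem val_mul {m v : ℕ} (hv : Small m v) (E : List R) (c : ℕ) (hm : c * m < 65536) :
    val E (c * v) = c • val E v := by
  induction c with
  | zero => simp [val_zero]
  | succ c ih =>
    rw [Nat.succ_mul] at hm
    rw [Nat.succ_mul, val_add hm E (small_mul_aux hv c (by omega)).1 hv, ih (by omega), succ_nsmul]

theorem nsmul_mod_five (h5 : (5 : R) = 0) (k : ℕ) (z : R) : (k % 5) • z = k • z := by
  conv_rhs => rw [← Nat.mod_add_div k 5, add_smul, mul_smul]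
  rw [nsmul_eq_mul (5 : ℕ)]; simp [h5]

theorem val_congr (h5 : (5 : R) = 0) (E : List R) : ∀ {u v : ℕ},
    (∀ i < E.length, dig u i = dig v i % 5) → val E u = val E v := by
  induction E with
  | nil => intros; rfl
  | cons e E ih =>
    intro u v h
    simp only [val]
    rw [ih (u := u / 65536) (v := v / 65536) fun i hi => by rw [← dig_succ, ← dig_succ]; exact h _ (by simpa using hi),
      ← dig_zero, ← dig_zero, h 0 (by simp), nsmul_mod_five h5]

theorem val_nrm (h5 : (5 : R) = 0) {E : List R} (hE : E.length ≤ 1024) {n : ℕ}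
    (hn : Small 8191 n) : val E (nrm n) = val E n :=
  val_congr h5 E fun i hi => by rw [dig_nrm hn, if_pos (by omega)]

theorem val_map_left (y : R) (E : List R) : ∀ v, val (E.map fun e => y * e) v = y * val E v := by
  induction E with
  | nil => simp [val]
  | cons e E ih => intro v; simp only [List.map_cons, val, ih, mul_add, mul_smul_comm]

theorem val_map_right (y : R) (E : List R) : ∀ v, val (E.map fun e => e * y) v = val E v * y := by
  induction E with
  | nil => simp [val]
  | cons e E ih => intro v; simp [val, ih, add_mul, mul_assoc]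

theorem val_append (G N : List R) : ∀ v, val (G ++ N) v = val G v + val N (v / 65536 ^ G.length) := by
  induction G with
  | nil => simp [val]
  | cons e G ih =>
    intro v
    simp only [List.cons_append, val, ih, List.length_cons, pow_succ', Nat.div_div_eq_div_mul,
      add_assoc]

theorem val_of_zero (E : List R) (h : ∀ e ∈ E, e = 0) : ∀ v, val E v = 0 := by
  induction E with
  | nil => intro; rfl
  | cons e E ih =>
    intro v
    simp [val, h e (by simp), ih fun e he => h e (by simp [he])]

theorem val_mul_pow (k : ℕ) : ∀ (E : List R) (v : ℕ), val E (v * 65536 ^ k) = val (E.drop k) v := by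
  induction k with
  | zero => simp
  | succ k ih =>
    intro E v
    cases E with
    | nil => rfl
    | cons e E =>
      rw [val, pow_succ, ← mul_assoc, Nat.mul_mod_left, Nat.mul_div_cancel _ (by norm_num), ih]
      simp

theorem val_pow (E : List R) (k : ℕ) : val E (65536 ^ k) = E.getD k 0 := by
  rw [← one_mul (65536 ^ k), val_mul_pow]
  rcases Nat.lt_or_ge k E.length with h | h
  · rw [List.drop_eq_getElem_cons h, List.getD_eq_getElem _ _ h]; simp [val, val_zero]
  · rw [List.drop_eq_nil_of_le h, List.getD_eq_default _ _ h]; rfl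

theorem Small.mul_pow {m v : ℕ} (h : Small m v) (k : ℕ) : Small m (v * 65536 ^ k) := by
  induction k with
  | zero => simpa using h
  | succ k ih =>
    intro i
    cases i with
    | zero => rw [dig_zero, pow_succ, ← mul_assoc, Nat.mul_mod_left]; omega
    | succ i => rw [dig_succ, pow_succ, ← mul_assoc, Nat.mul_div_cancel _ (by norm_num)]; exact ih i

theorem small_one : Small 1 1 := fun i => by
  cases i with
  | zero => simp [dig]
  | succ i => rw [dig_succ]; simp [dig]

theorem small_pow (k : ℕ) : Small 1 (65536 ^ k) := by simpa using small_one.mul_pow k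

theorem val_mem (H : AddSubgroup R) (E : List R) (h : ∀ e ∈ E, e ∈ H) : ∀ v, val E v ∈ H := by
  induction E with
  | nil => intro; exact zero_mem _
  | cons e E ih =>
    exact fun v => add_mem (nsmul_mem (h e (by simp)) _) (ih (fun e he => h e (by simp [he])) _)

/-- Shift down by `k` digits. -/
def shr (v k : ℕ) : ℕ := Nat.shiftRight v (Nat.mul (nat_lit 16) k)

/-- Shift up by `k` digits. -/
def shl (v k : ℕ) : ℕ := Nat.shiftLeft v (Nat.mul (nat_lit 16) k)

theorem shr_eq (v k : ℕ) : shr v k = v / 65536 ^ k := by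
  change v >>> (16 * k) = _
  rw [Nat.shiftRight_eq_div_pow, pow_mul]; norm_num

theorem shl_eq (v k : ℕ) : shl v k = v * 65536 ^ k := by
  change v <<< (16 * k) = _
  rw [Nat.shiftLeft_eq, pow_mul]; norm_num

/-- `T` lists the coordinates, with respect to `N`, of the elements of `E`. -/
def Tab (N E : List R) (T : List ℕ) : Prop :=
  List.Forall₂ (fun e r => Small 4 r ∧ val N r = e) E T

/-- Vector times matrix, added to an accumulator. -/
noncomputable def vm (rows : List ℕ) : ℕ → ℕ → ℕ :=
  List.rec (motive := fun _ => ℕ → ℕ → ℕ) (fun _ acc => acc)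
    (fun r _ ih v acc => ih (Nat.shiftRight v (nat_lit 16))
      (Nat.add acc (Nat.mul (Nat.land v (nat_lit 7)) r))) rows

theorem vm_spec {N E : List R} {T : List ℕ} (h : Tab N E T) : ∀ {v acc m : ℕ}, Small 4 v →
    Small m acc → m + 16 * E.length < 65536 →
    Small (m + 16 * E.length) (vm T v acc) ∧ val N (vm T v acc) = val N acc + val E v := by
  induction h with
  | nil => intro v acc m _ ha _; exact ⟨ha, by simp [vm, val]⟩
  | @cons e r E T h _ ih =>
    intro v acc m hv ha hm
    have e1 : vm (r :: T) v acc = vm T (v / 65536) (acc + (v % 65536) * r) := by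
      change vm T (v >>> 16) (acc + (v &&& (2 ^ 3 - 1)) * r) = _
      have := hv.head
      rw [Nat.shiftRight_eq_div_pow, Nat.and_two_pow_sub_one_eq_mod,
        show v % 2 ^ 3 = v % 65536 by omega]
    have hd := hv.head
    rw [List.length_cons] at hm ⊢
    have h1 : Small 16 ((v % 65536) * r) :=
      (small_mul_aux h.1 _ (by omega)).1.mono (by omega)
    obtain ⟨h2, h3⟩ := ih hv.div (ha.add h1 (by omega)) (by omega)
    rw [e1]
    refine ⟨h2.mono (by omega), ?_⟩
    rw [h3, val_add (by omega) N ha h1, val_mul h.1 N _ (by omega), h.2, val, add_assoc]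

/-- Vector times matrix, reduced modulo five. -/
noncomputable def nvm (rows : List ℕ) (v acc : ℕ) : ℕ := nrm (vm rows v acc)

theorem nvm_spec (h5 : (5 : R) = 0) {N E : List R} {T : List ℕ} (h : Tab N E T)
    (hN : N.length ≤ 1024) (hE : E.length ≤ 500) {v acc : ℕ} (hv : Small 4 v)
    (ha : Small 100 acc) :
    Small 4 (nvm T v acc) ∧ val N (nvm T v acc) = val N acc + val E v := by
  obtain ⟨h1, h2⟩ := vm_spec h hv ha (by omega)
  have h3 := h1.mono (m' := 8191) (by omega)
  exact ⟨small_nrm h3, by rw [nvm, val_nrm h5 hN h3, h2]⟩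

/-- Evaluate `n` before passing it on. -/
noncomputable def force {α : Type} (n : ℕ) (k : ℕ → α) : α :=
  Nat.rec (motive := fun _ => α) (k (nat_lit 0)) (fun m _ => k (Nat.succ m)) n

theorem force_eq {α : Type} (n : ℕ) (k : ℕ → α) : force n k = k n := by
  cases n <;> rfl

end Kos.Chk
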